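import Pool.Agent.H79.SL.Oo

/-!
# THEOREM SOLV (MP_576eff_lc): the series over a normal subgroup and the families of normal subgroups

`Ns M`: the terms `nx^[i] M` of the series from `M` to `⊤`; there are at most `M.index` of them. `MMf Bs`: the terms of the series over the
members of `Bs`, and `⊤`. `RRf LL Bs`: the members of `MMf Bs`, `oo M p`, `nx M ⊔ oo M p` for these `M`, `oo ⊥ p` and `oo ⊥ p ⊔ oo ⊥ q`, for
`p`, `q` in `LL`.
-/

set_option autoImplicit false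

open Set

namespace Pool.Agent.H81.SV

open Pool.Agent.H79.SL

variable {G : Type} [Group G]

/-- the terms of the series over `M` -/
def Ns (M : Subgroup G) : Set (Subgroup G) := {V | ∃ i : ℕ, V = nx^[i] M}

theorem ns_self (M : Subgroup G) : M ∈ Ns M := ⟨0, rfl⟩

theorem ns_nx {M V : Subgroup G} (h : V ∈ Ns M) : nx V ∈ Ns M := by
  obtain ⟨i, rfl⟩ := h
  exact ⟨i + 1, (Function.iterate_succ_apply' nx i M).symm⟩

theorem ns_top : Ns (⊤ : Subgroup G) = {⊤} := by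
  have h : ∀ i : ℕ, nx^[i] (⊤ : Subgroup G) = ⊤ := by
    intro i
    induction i with
    | zero => rfl
    | succ i ih => rw [Function.iterate_succ_apply, nx_top, ih]
  ext V
  constructor
  · rintro ⟨i, rfl⟩
    exact h i
  · intro hV
    exact ⟨0, hV⟩

theorem ns_insert (M : Subgroup G) : Ns M = insert M (Ns (nx M)) := by
  ext V
  constructor
  · rintro ⟨i, rfl⟩
    cases i with
    | zero => exact Or.inl rfl
    | succ i => exact Or.inr ⟨i, Function.iterate_succ_apply nx i M⟩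
  · rintro (rfl | ⟨i, rfl⟩)
    · exact ns_self V
    · exact ⟨i + 1, (Function.iterate_succ_apply nx i M).symm⟩

variable [Finite G] [Group.IsSolvable G]

theorem ns_ge {M : Subgroup G} (hM : M.Normal) : ∀ V ∈ Ns M, V.Normal ∧ M ≤ V := by
  rintro V ⟨i, rfl⟩
  induction i with
  | zero => exact ⟨hM, le_rfl⟩
  | succ i ih =>
    rw [Function.iterate_succ_apply']
    exact ⟨nx_normal ih.1, ih.2.trans (le_nx ih.1)⟩

/-- every next term halves the index -/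
private theorem nx_index {M : Subgroup G} (hM : M.Normal) (h : M ≠ ⊤) : (nx M).index * 2 ≤ M.index := by
  obtain ⟨_, h2, _⟩ := nx_spec hM h
  have h3 := Subgroup.relIndex_mul_index h2.le
  have h4 : M.relIndex (nx M) ≠ 1 := fun h5 => absurd h2 (not_lt_of_ge (Subgroup.relIndex_eq_one.1 h5))
  have h5 : M.relIndex (nx M) ≠ 0 := Subgroup.index_ne_zero_of_finite (H := M.subgroupOf (nx M))
  have h6 : 2 ≤ M.relIndex (nx M) := by omega
  calc (nx M).index * 2 ≤ (nx M).index * M.relIndex (nx M) := Nat.mul_le_mul_left _ h6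
    _ = M.index := by rw [mul_comm, h3]

theorem ns_ncard {M : Subgroup G} (hM : M.Normal) : (Ns M).ncard ≤ M.index := by
  obtain ⟨d, hd⟩ : ∃ d, d = M.index := ⟨_, rfl⟩
  induction d using Nat.strong_induction_on generalizing M with
  | _ d ih =>
    have hpos : 0 < M.index := Nat.pos_of_ne_zero Subgroup.index_ne_zero_of_finite
    by_cases h : M = ⊤
    · rw [h, ns_top, ncard_singleton, Subgroup.index_top]
    · have h1 := nx_index hM h
      have hpos' : 0 < (nx M).index := Nat.pos_of_ne_zero Subgroup.index_ne_zero_of_finite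
      have h2 := ih (nx M).index (by omega) (nx_normal hM) rfl
      rw [ns_insert]
      have h3 := ncard_insert_le M (Ns (nx M))
      omega

/-- the terms of the series over the members of `Bs` -/
def MMf (Bs : Set (Subgroup G)) : Set (Subgroup G) := {⊤} ∪ {V | ∃ M ∈ Bs, V ∈ Ns M}

/-- the normal subgroups for the classes -/
def RRf (LL : Set ℕ) (Bs : Set (Subgroup G)) : Set (Subgroup G) :=
  MMf Bs ∪ {X | ∃ M ∈ MMf Bs, ∃ l ∈ LL, X = oo M l} ∪ {X | ∃ M ∈ MMf Bs, ∃ l ∈ LL, X = nx M ⊔ oo M l} ∪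
    {X | ∃ l ∈ LL, X = oo ⊥ l} ∪ {X | ∃ l ∈ LL, ∃ t ∈ LL, X = oo ⊥ l ⊔ oo ⊥ t}

omit [Finite G] [Group.IsSolvable G] in
theorem mmf_top (Bs : Set (Subgroup G)) : ⊤ ∈ MMf Bs := Or.inl rfl

omit [Finite G] [Group.IsSolvable G] in
theorem mmf_base {Bs : Set (Subgroup G)} {M : Subgroup G} (h : M ∈ Bs) : M ∈ MMf Bs :=
  Or.inr ⟨M, h, ns_self M⟩

omit [Finite G] [Group.IsSolvable G] in
theorem mmf_nx {Bs : Set (Subgroup G)} {M : Subgroup G} (h : M ∈ MMf Bs) : nx M ∈ MMf Bs := by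
  rcases h with h | ⟨M0, h0, h⟩
  · rw [mem_singleton_iff] at h
    rw [h, nx_top]
    exact mmf_top Bs
  · exact Or.inr ⟨M0, h0, ns_nx h⟩

theorem mmf_normal {Bs : Set (Subgroup G)} (hB : ∀ M ∈ Bs, M.Normal) : ∀ V ∈ MMf Bs, V.Normal := by
  rintro V (hV | ⟨M, hM, hV⟩)
  · rw [mem_singleton_iff] at hV
    rw [hV]
    infer_instance
  · exact (ns_ge (hB M hM) V hV).1

theorem mmf_index {Bs : Set (Subgroup G)} {I : ℕ} (hI : 1 ≤ I) (hB : ∀ M ∈ Bs, M.Normal ∧ M.index ≤ I) :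
    ∀ V ∈ MMf Bs, V.index ≤ I := by
  rintro V (hV | ⟨M, hM, hV⟩)
  · rw [mem_singleton_iff] at hV
    rw [hV, Subgroup.index_top]
    exact hI
  · exact (Nat.le_of_dvd (Nat.pos_of_ne_zero Subgroup.index_ne_zero_of_finite)
      (Subgroup.index_dvd_of_le (ns_ge (hB M hM).1 V hV).2)).trans (hB M hM).2

theorem mmf_ncard {Bs : Set (Subgroup G)} {I : ℕ} (hB : ∀ M ∈ Bs, M.Normal ∧ M.index ≤ I) :
    (MMf Bs).ncard ≤ 1 + Bs.ncard * I := by
  classical
  have h1 : {V | ∃ M ∈ Bs, V ∈ Ns M} = ⋃ M ∈ Bs, Ns M := by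
    ext V
    simp only [mem_ofPred_eq, mem_iUnion, exists_prop]
  have hf : Bs.Finite := toFinite Bs
  have h2 : ({V | ∃ M ∈ Bs, V ∈ Ns M} : Set (Subgroup G)).ncard ≤ Bs.ncard * I := by
    rw [h1]
    have h3 := Finset.card_biUnion_le (s := hf.toFinset) (t := fun M => (toFinite (Ns M)).toFinset)
    have h4 : (⋃ M ∈ Bs, Ns M) = ((hf.toFinset.biUnion fun M => (toFinite (Ns M)).toFinset :
        Finset (Subgroup G)) : Set (Subgroup G)) := by
      ext V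
      simp
    rw [h4, ncard_coe_finset, ncard_eq_toFinset_card Bs hf]
    refine h3.trans ?_
    refine (Finset.sum_le_card_nsmul _ _ I fun M hM => ?_).trans (by rw [smul_eq_mul])
    rw [← ncard_eq_toFinset_card]
    have hM' : M ∈ Bs := by simpa using hM
    exact (ns_ncard (hB M hM').1).trans (hB M hM').2
  refine (ncard_union_le _ _).trans ?_
  rw [ncard_singleton]
  omega

theorem rrf_normal (LL : Set ℕ) {Bs : Set (Subgroup G)} (hB : ∀ M ∈ Bs, M.Normal) :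
    ∀ V ∈ RRf LL Bs, V.Normal := by
  have hbot : (⊥ : Subgroup G).Normal := inferInstance
  rintro V ((((hV | ⟨M, hM, l, _, rfl⟩) | ⟨M, hM, l, _, rfl⟩) | ⟨l, _, rfl⟩) | ⟨l, _, t, _, rfl⟩)
  · exact mmf_normal hB V hV
  · exact oo_normal (mmf_normal hB M hM) _
  · have h1 := oo_normal (mmf_normal hB M hM) l
    have h2 := nx_normal (mmf_normal hB M hM)
    exact Subgroup.sup_normal _ _
  · exact oo_normal hbot _
  · have h1 := oo_normal hbot l
    have h2 := oo_normal hbot t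
    exact Subgroup.sup_normal _ _

omit [Group.IsSolvable G] in
theorem index_le_of {U V : Subgroup G} {I : ℕ} (h : U ≤ V) (h' : U.index ≤ I) : V.index ≤ I :=
  (Nat.le_of_dvd (Nat.pos_of_ne_zero Subgroup.index_ne_zero_of_finite)
    (Subgroup.index_dvd_of_le h)).trans h'

theorem rrf_index {LL : Set ℕ} {Bs : Set (Subgroup G)} {I : ℕ} (hI : 1 ≤ I)
    (hB : ∀ M ∈ Bs, M.Normal ∧ M.index ≤ I) (hpr : ∀ l ∈ LL, (oo (⊥ : Subgroup G) l).index ≤ I) :
    ∀ V ∈ RRf LL Bs, V.index ≤ I := by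
  have hN : ∀ M ∈ Bs, M.Normal := fun M hM => (hB M hM).1
  rintro V ((((hV | ⟨M, hM, l, _, rfl⟩) | ⟨M, hM, l, _, rfl⟩) | ⟨l, hl, rfl⟩) | ⟨l, hl, t, _, rfl⟩)
  · exact mmf_index hI hB V hV
  · exact index_le_of (le_oo (mmf_normal hN M hM) _) (mmf_index hI hB M hM)
  · exact index_le_of ((le_oo (mmf_normal hN M hM) _).trans le_sup_right) (mmf_index hI hB M hM)
  · exact hpr l hl
  · exact index_le_of le_sup_left (hpr l hl)

theorem rrf_ncard {LL : Set ℕ} (hLL : LL.Finite) {Bs : Set (Subgroup G)} {I : ℕ}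
    (hB : ∀ M ∈ Bs, M.Normal ∧ M.index ≤ I) :
    (RRf LL Bs).ncard ≤
      (1 + Bs.ncard * I) * (1 + 2 * LL.ncard) + LL.ncard + LL.ncard * LL.ncard := by
  classical
  obtain ⟨c, hc⟩ : ∃ c, c = 1 + Bs.ncard * I := ⟨_, rfl⟩
  have h0 : (MMf Bs).ncard ≤ c := by
    rw [hc]
    exact mmf_ncard hB
  have hS : ∀ F : Subgroup G → ℕ → Subgroup G,
      ({X | ∃ M ∈ MMf Bs, ∃ l ∈ LL, X = F M l} : Set (Subgroup G)).ncard ≤ c * LL.ncard := by
    intro F
    have e : ({X | ∃ M ∈ MMf Bs, ∃ l ∈ LL, X = F M l} : Set (Subgroup G)) =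
        (fun x : Subgroup G × ℕ => F x.1 x.2) '' (MMf Bs ×ˢ LL) := by
      ext X
      constructor
      · rintro ⟨M, hM, l, hl, rfl⟩
        exact ⟨(M, l), ⟨hM, hl⟩, rfl⟩
      · rintro ⟨⟨M, l⟩, ⟨hM, hl⟩, rfl⟩
        exact ⟨M, hM, l, hl, rfl⟩
    rw [e]
    refine (ncard_image_le ((toFinite _).prod hLL)).trans ?_
    rw [ncard_prod]
    exact Nat.mul_le_mul_right _ h0
  have hr1 : ({X | ∃ l ∈ LL, X = oo (⊥ : Subgroup G) l} : Set (Subgroup G)).ncard ≤ LL.ncard := by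
    have e : ({X | ∃ l ∈ LL, X = oo (⊥ : Subgroup G) l} : Set (Subgroup G)) =
        (fun l => oo (⊥ : Subgroup G) l) '' LL := by
      ext X
      constructor
      · rintro ⟨l, hl, rfl⟩
        exact ⟨l, hl, rfl⟩
      · rintro ⟨l, hl, rfl⟩
        exact ⟨l, hl, rfl⟩
    rw [e]
    exact ncard_image_le hLL
  have hr2 : ({X | ∃ l ∈ LL, ∃ t ∈ LL, X = oo (⊥ : Subgroup G) l ⊔ oo ⊥ t} :
      Set (Subgroup G)).ncard ≤ LL.ncard * LL.ncard := by
    have e : ({X | ∃ l ∈ LL, ∃ t ∈ LL, X = oo (⊥ : Subgroup G) l ⊔ oo ⊥ t} : Set (Subgroup G)) =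
        (fun x : ℕ × ℕ => oo (⊥ : Subgroup G) x.1 ⊔ oo ⊥ x.2) '' (LL ×ˢ LL) := by
      ext X
      constructor
      · rintro ⟨l, hl, t, ht, rfl⟩
        exact ⟨(l, t), ⟨hl, ht⟩, rfl⟩
      · rintro ⟨⟨l, t⟩, ⟨hl, ht⟩, rfl⟩
        exact ⟨l, hl, t, ht, rfl⟩
    rw [e]
    refine (ncard_image_le (hLL.prod hLL)).trans ?_
    rw [ncard_prod]
  rw [← hc]
  obtain ⟨S1, hS1⟩ : ∃ S, S = ({X | ∃ M ∈ MMf Bs, ∃ l ∈ LL, X = oo M l} : Set (Subgroup G)) := ⟨_, rfl⟩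
  obtain ⟨S2, hS2⟩ : ∃ S, S = ({X | ∃ M ∈ MMf Bs, ∃ l ∈ LL, X = nx M ⊔ oo M l} :
    Set (Subgroup G)) := ⟨_, rfl⟩
  obtain ⟨S3, hS3⟩ : ∃ S, S = ({X | ∃ l ∈ LL, X = oo (⊥ : Subgroup G) l} : Set (Subgroup G)) := ⟨_, rfl⟩
  obtain ⟨S4, hS4⟩ : ∃ S, S = ({X | ∃ l ∈ LL, ∃ t ∈ LL, X = oo (⊥ : Subgroup G) l ⊔ oo ⊥ t} :
    Set (Subgroup G)) := ⟨_, rfl⟩
  have h1 := hS (fun M l => oo M l)
  have h2 := hS (fun M l => nx M ⊔ oo M l)
  rw [← hS1] at h1
  rw [← hS2] at h2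
  rw [← hS3] at hr1
  rw [← hS4] at hr2
  have e0 : RRf LL Bs = MMf Bs ∪ S1 ∪ S2 ∪ S3 ∪ S4 := by
    rw [hS1, hS2, hS3, hS4]
    rfl
  rw [e0]
  have e1 := ncard_union_le (MMf Bs ∪ S1 ∪ S2 ∪ S3) S4
  have e2 := ncard_union_le (MMf Bs ∪ S1 ∪ S2) S3
  have e3 := ncard_union_le (MMf Bs ∪ S1) S2
  have e4 := ncard_union_le (MMf Bs) S1
  have h5 : c * (1 + 2 * LL.ncard) = c + c * LL.ncard + c * LL.ncard := by ring
  omega

end Pool.Agent.H81.SV
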