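import Pool.Agent.H29.SV.SDefs
import Pool.Agent.H81.SV.Fam

/-!
# THEOREM SOLV (MP_576eff_lc): the data of a solvable group of permutations, index bounds, the families

* `sd_ex`: the data `D : Sd (Fin n)` of a solvable group `Γ` of permutations; `D.LL`: the primes of its order, and `2`.
* `N_le`, `base_index`: index bounds. `fam_ex`: the two families of normal subgroups, with bounds for the indices and for the numbers of members.
-/

set_option autoImplicit false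

open Set

namespace Pool.Agent.H81.SV

open Pool.Agent.H42.CS Pool.Agent.H29.NS Pool.Agent.H29.SV
open Pool.Agent.H79.SL (oo nx oo_normal le_oo oo_max)

variable {Rel : ℕ → Type} {n : ℕ}

/-- the primes of the order of a group of permutations, and `2` -/
def prs (Γ : Subgroup (Equiv.Perm (Fin n))) : Set ℕ := {p | p.Prime ∧ (p ∣ Nat.card Γ ∨ p = 2)}

theorem prs_sub (hn : 2 ≤ n) (Γ : Subgroup (Equiv.Perm (Fin n))) :
    prs Γ ⊆ ((Finset.Icc 1 n : Finset ℕ) : Set ℕ) := by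
  rintro p ⟨hp, h⟩
  rw [Finset.coe_Icc, mem_Icc]
  refine ⟨hp.one_lt.le, ?_⟩
  rcases h with h | h
  · have h1 : Nat.card Γ ∣ Nat.card (Equiv.Perm (Fin n)) := Subgroup.card_subgroup_dvd_card Γ
    rw [Nat.card_perm, Nat.card_eq_fintype_card (α := Fin n), Fintype.card_fin] at h1
    exact (hp.dvd_factorial).1 (h.trans h1)
  · omega

theorem prs_fin (hn : 2 ≤ n) (Γ : Subgroup (Equiv.Perm (Fin n))) : (prs Γ).Finite :=
  (Finset.finite_toSet _).subset (prs_sub hn Γ)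

theorem prs_ncard (hn : 2 ≤ n) (Γ : Subgroup (Equiv.Perm (Fin n))) : (prs Γ).ncard ≤ n := by
  refine (ncard_le_ncard (prs_sub hn Γ) (Finset.finite_toSet _)).trans ?_
  rw [ncard_coe_finset, Nat.card_Icc]
  omega

/-- the data of a solvable group of permutations -/
def sdOf (hn : 2 ≤ n) (Γ : Subgroup (Equiv.Perm (Fin n))) [Group.IsSolvable Γ] : Sd (Fin n) where
  G := Γ
  LL := prs Γ
  lfin := prs_fin hn Γ
  lne := ⟨2, Nat.prime_two, Or.inr rfl⟩
  lp := fun _ h => h.1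
  lall := fun _ h1 h2 => ⟨h1, Or.inl h2⟩
  act := Γ.subtype

theorem sd_N {Γ : Subgroup (Equiv.Perm (Fin n))} (D : Sd (Fin n)) (e : Γ ≃* D.G)
    (he : ∀ σ : Γ, D.act (e σ) = (σ : Equiv.Perm (Fin n))) (x : Fin n) :
    (D.N {x}).index ≤ (MulAction.stabilizer Γ x).normalCore.index := by
  have h0 : ((D.N {x}).comap e.toMonoidHom).index = (D.N {x}).index :=
    Subgroup.index_comap_of_surjective _ e.surjective
  rw [← h0]
  refine Nat.le_of_dvd (Nat.pos_of_ne_zero Subgroup.index_ne_zero_of_finite)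
    (Subgroup.index_dvd_of_le ?_)
  intro ρ hρ p hp g
  rw [mem_singleton_iff.1 hp]
  obtain ⟨τ, rfl⟩ := e.surjective g
  have h1 : τ⁻¹ * ρ * τ⁻¹⁻¹ ∈ (MulAction.stabilizer Γ x).normalCore :=
    (Subgroup.normalCore_normal _).conj_mem _ hρ _
  have h2 := MulAction.mem_stabilizer_iff.1 (Subgroup.normalCore_le _ h1)
  rw [inv_inv, mul_smul, mul_smul, inv_smul_eq_iff] at h2
  change D.act (e ρ) (D.act (e τ) x) = D.act (e τ) x
  rw [he, he]
  exact h2

theorem sd_ex (hn : 2 ≤ n) (Γ : Subgroup (Equiv.Perm (Fin n))) (hΓ : Group.IsSolvable Γ) {A B : ℕ}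
    (hA : ∀ x : Fin n, (MulAction.stabilizer Γ x).normalCore.index ≤ A)
    (hB : ∀ p : ℕ, p.Prime → (oo (⊥ : Subgroup Γ) p).index ≤ B) :
    ∃ (D : Sd (Fin n)) (e : Γ ≃* D.G), (∀ σ : Γ, D.act (e σ) = (σ : Equiv.Perm (Fin n))) ∧
      D.LL.ncard ≤ n ∧ (∀ x, (D.N {x}).index ≤ A) ∧
      ∀ l ∈ D.LL, (oo (⊥ : Subgroup D.G) l).index ≤ B := by
  refine ⟨sdOf hn Γ, MulEquiv.refl Γ, fun σ => rfl, prs_ncard hn Γ, fun x => ?_, fun l hl => ?_⟩
  · exact (sd_N (sdOf hn Γ) (MulEquiv.refl Γ) (fun σ => rfl) x).trans (hA x)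
  · exact hB l hl.1

/-! ### Index bounds -/

variable (D : Sd (Fin n))

theorem N_normal (o : Set (Fin n)) : (D.N o).Normal := by
  refine ⟨fun x hx g p hp h => ?_⟩
  have h1 := hx p hp (g⁻¹ * h)
  rw [map_mul, map_mul, map_inv, Equiv.Perm.mul_apply, Equiv.Perm.mul_apply]
  rw [map_mul, map_inv, Equiv.Perm.mul_apply] at h1
  rw [h1]
  exact Equiv.apply_symm_apply _ _

theorem N_insert (x : Fin n) (o : Set (Fin n)) : D.N (insert x o) = D.N {x} ⊓ D.N o := by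
  ext y
  constructor
  · intro h
    exact ⟨fun p hp => h p (by rw [mem_singleton_iff.1 hp]; exact mem_insert _ _),
      fun p hp => h p (mem_insert_of_mem _ hp)⟩
  · rintro ⟨h1, h2⟩ p hp
    rcases mem_insert_iff.1 hp with hp | hp
    · exact h1 p (mem_singleton_iff.2 hp)
    · exact h2 p hp

theorem N_index {A : ℕ} (hA : ∀ x, (D.N {x}).index ≤ A) (o : Set (Fin n)) :
    (D.N o).index ≤ A ^ o.ncard := by
  refine Set.Finite.induction_on o (Set.toFinite o) ?_ ?_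
  · rw [ncard_empty, pow_zero]
    have h : D.N ∅ = ⊤ := by
      rw [eq_top_iff]
      intro x _ p hp
      exact absurd hp (notMem_empty p)
    rw [h, Subgroup.index_top]
  · intro x o hx _ ih
    rw [ncard_insert_of_notMem hx (Set.toFinite o), pow_succ', N_insert]
    exact Subgroup.index_inf_le.trans (Nat.mul_le_mul (hA x) ih)

/-- the bases of the families -/
def bas (k : ℕ) : Set (Subgroup D.G) :=
  {M | ∃ o : Set (Fin n), o.ncard ≤ k ∧ M = D.N o} ∪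
    {M | ∃ l ∈ D.LL, ∃ o : Set (Fin n), o.ncard ≤ k ∧ M = oo ⊥ l ⊓ D.N o} ∪
    {M | ∃ l ∈ D.LL, ∃ t ∈ D.LL, ∃ o : Set (Fin n), o.ncard ≤ k ∧ M = oo ⊥ l ⊓ oo ⊥ t ⊓ D.N o}

theorem bas_index {k A B : ℕ} (hA1 : 1 ≤ A) (hA : ∀ x, (D.N {x}).index ≤ A)
    (hB : ∀ l ∈ D.LL, (oo (⊥ : Subgroup D.G) l).index ≤ B) :
    ∀ M ∈ bas D k, M.Normal ∧ M.index ≤ B * B * A ^ k := by
  have hbot : (⊥ : Subgroup D.G).Normal := inferInstance
  have hB1 : 1 ≤ B := by
    obtain ⟨l, hl⟩ := D.lne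
    exact (Nat.one_le_iff_ne_zero.2 Subgroup.index_ne_zero_of_finite).trans (hB l hl)
  have hN : ∀ o : Set (Fin n), o.ncard ≤ k → (D.N o).index ≤ A ^ k := fun o ho =>
    (N_index D hA o).trans (Nat.pow_le_pow_right hA1 ho)
  rintro M ((⟨o, ho, rfl⟩ | ⟨l, hl, o, ho, rfl⟩) | ⟨l, hl, t, ht, o, ho, rfl⟩)
  · refine ⟨N_normal D o, (hN o ho).trans ?_⟩
    exact Nat.le_mul_of_pos_left _ (Nat.mul_pos hB1 hB1)
  · have h1 := oo_normal hbot l
    have h2 := N_normal D o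
    refine ⟨inferInstance, Subgroup.index_inf_le.trans ?_⟩
    refine (Nat.mul_le_mul (hB l hl) (hN o ho)).trans ?_
    exact Nat.mul_le_mul_right _ (Nat.le_mul_of_pos_left _ hB1)
  · have h1 := oo_normal hbot l
    have h3 := oo_normal hbot t
    have h2 := N_normal D o
    refine ⟨inferInstance, Subgroup.index_inf_le.trans ?_⟩
    exact Nat.mul_le_mul (Subgroup.index_inf_le.trans (Nat.mul_le_mul (hB l hl) (hB t ht))) (hN o ho)

/-- the small sets of points -/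
theorem small_ncard (n k : ℕ) : ({o : Set (Fin n) | o.ncard ≤ k}).ncard ≤ (n + 1) ^ k := by
  classical
  have h1 : {o : Set (Fin n) | o.ncard ≤ k} ⊆
      range fun f : Fin k → Option (Fin n) => {x : Fin n | ∃ i, f i = some x} := by
    intro o ho
    have ho : o.ncard ≤ k := ho
    obtain ⟨c, hc⟩ : ∃ c, c = o.ncard := ⟨_, rfl⟩
    have e := (Finite.equivFin o)
    have hcc : Nat.card o = c := by rw [hc]; rfl
    refine ⟨fun i => if h : i.1 < Nat.card o then some (e.symm ⟨i.1, h⟩ : o).1 else none, ?_⟩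
    ext x
    constructor
    · rintro ⟨i, hi⟩
      beta_reduce at hi
      by_cases h : i.1 < Nat.card o
      · rw [dif_pos h, Option.some_inj] at hi
        rw [← hi]
        exact (e.symm ⟨i.1, h⟩).2
      · rw [dif_neg h] at hi
        exact absurd hi (by simp)
    · intro hx
      have h2 := (e ⟨x, hx⟩).2
      refine ⟨⟨(e ⟨x, hx⟩).1, by omega⟩, ?_⟩
      beta_reduce
      rw [dif_pos h2]
      exact congrArg (fun y : o => some (y : Fin n)) (e.symm_apply_apply ⟨x, hx⟩)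
  refine (ncard_le_ncard h1 (toFinite _)).trans ?_
  rw [← image_univ]
  refine (ncard_image_le (toFinite _)).trans ?_
  rw [ncard_univ, Nat.card_eq_fintype_card, Fintype.card_fun, Fintype.card_option, Fintype.card_fin,
    Fintype.card_fin]

theorem bas_ncard (k : ℕ) :
    (bas D k).ncard ≤ (n + 1) ^ k * (1 + D.LL.ncard + D.LL.ncard * D.LL.ncard) := by
  classical
  have hS : ∀ {α : Type} (I : Set α) (_ : I.Finite) (F : α → Set (Fin n) → Subgroup D.G),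
      ({M | ∃ i ∈ I, ∃ o : Set (Fin n), o.ncard ≤ k ∧ M = F i o} : Set (Subgroup D.G)).ncard ≤
        I.ncard * (n + 1) ^ k := by
    intro α I hI F
    have e : ({M | ∃ i ∈ I, ∃ o : Set (Fin n), o.ncard ≤ k ∧ M = F i o} : Set (Subgroup D.G)) =
        (fun x : α × Set (Fin n) => F x.1 x.2) '' (I ×ˢ {o : Set (Fin n) | o.ncard ≤ k}) := by
      ext M
      constructor
      · rintro ⟨i, hi, o, ho, rfl⟩
        exact ⟨(i, o), ⟨hi, ho⟩, rfl⟩
      · rintro ⟨⟨i, o⟩, ⟨hi, ho⟩, rfl⟩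
        exact ⟨i, hi, o, ho, rfl⟩
    rw [e]
    refine (ncard_image_le (hI.prod (toFinite _))).trans ?_
    rw [ncard_prod]
    exact Nat.mul_le_mul_left _ (small_ncard n k)
  have h1 : ({M | ∃ o : Set (Fin n), o.ncard ≤ k ∧ M = D.N o} : Set (Subgroup D.G)).ncard ≤
      (n + 1) ^ k := by
    have e : ({M | ∃ o : Set (Fin n), o.ncard ≤ k ∧ M = D.N o} : Set (Subgroup D.G)) =
        (fun o => D.N o) '' {o : Set (Fin n) | o.ncard ≤ k} := by
      ext M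
      constructor
      · rintro ⟨o, ho, rfl⟩
        exact ⟨o, ho, rfl⟩
      · rintro ⟨o, ho, rfl⟩
        exact ⟨o, ho, rfl⟩
    rw [e]
    exact (ncard_image_le (toFinite _)).trans (small_ncard n k)
  have h2 := hS D.LL D.lfin fun l o => oo ⊥ l ⊓ D.N o
  have h3 := hS (D.LL ×ˢ D.LL) (D.lfin.prod D.lfin) fun l o => oo ⊥ l.1 ⊓ oo ⊥ l.2 ⊓ D.N o
  rw [ncard_prod] at h3
  have e3 : ({M | ∃ i ∈ D.LL ×ˢ D.LL, ∃ o : Set (Fin n), o.ncard ≤ k ∧
      M = oo ⊥ i.1 ⊓ oo ⊥ i.2 ⊓ D.N o} : Set (Subgroup D.G)) =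
      {M | ∃ l ∈ D.LL, ∃ t ∈ D.LL, ∃ o : Set (Fin n), o.ncard ≤ k ∧ M = oo ⊥ l ⊓ oo ⊥ t ⊓ D.N o} := by
    ext M
    constructor
    · rintro ⟨⟨l, t⟩, ⟨hl, ht⟩, o, ho, rfl⟩
      exact ⟨l, hl, t, ht, o, ho, rfl⟩
    · rintro ⟨l, hl, t, ht, o, ho, rfl⟩
      exact ⟨(l, t), ⟨hl, ht⟩, o, ho, rfl⟩
  rw [e3] at h3
  obtain ⟨c, hc⟩ : ∃ c, c = (n + 1) ^ k := ⟨_, rfl⟩
  rw [← hc] at h1 h2 h3 ⊢
  refine (ncard_union_le _ _).trans ?_
  refine (Nat.add_le_add ((ncard_union_le _ _).trans (Nat.add_le_add h1 h2)) h3).trans ?_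
  have h5 : c * (1 + D.LL.ncard + D.LL.ncard * D.LL.ncard) =
      c + D.LL.ncard * c + D.LL.ncard * D.LL.ncard * c := by ring
  omega

/-- the two families of normal subgroups -/
theorem fam_ex (L k : ℕ) (a : ℕ → Atom Rel (Fin n)) (ha : ∀ s < L, (pts (a s)).ncard ≤ k)
    (hm : D.LL.ncard ≤ n) {A B : ℕ} (hA1 : 1 ≤ A) (hA : ∀ x, (D.N {x}).index ≤ A)
    (hB : ∀ l ∈ D.LL, (oo (⊥ : Subgroup D.G) l).index ≤ B) :
    ∃ MM RR : Set (Subgroup D.G), Fam D L k a MM RR ∧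
      (∀ M ∈ MM, M.index ≤ B * B * A ^ k) ∧ (∀ X ∈ RR, X.index ≤ B * B * A ^ k) ∧
      MM.ncard ≤ 2 * ((n + 1) ^ (k + 2) * (B * B * A ^ k)) ∧
      RR.ncard ≤ 6 * ((n + 1) ^ (k + 4) * (B * B * A ^ k)) := by
  obtain ⟨I, hI⟩ : ∃ I, I = B * B * A ^ k := ⟨_, rfl⟩
  have hB1 : 1 ≤ B := by
    obtain ⟨l, hl⟩ := D.lne
    exact (Nat.one_le_iff_ne_zero.2 Subgroup.index_ne_zero_of_finite).trans (hB l hl)
  have hI1 : 1 ≤ I := by
    rw [hI]
    exact Nat.mul_pos (Nat.mul_pos hB1 hB1) (Nat.pow_pos hA1)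
  have hBI : B ≤ I := by
    rw [hI, mul_assoc]
    exact Nat.le_mul_of_pos_right _ (Nat.mul_pos hB1 (Nat.pow_pos hA1))
  have hb := bas_index D (k := k) hA1 hA hB
  rw [← hI] at hb
  have hbn := bas_ncard D k
  have hN : ∀ M ∈ bas D k, M.Normal := fun M hM => (hb M hM).1
  have hpr : ∀ l ∈ D.LL, (oo (⊥ : Subgroup D.G) l).index ≤ I := fun l hl => (hB l hl).trans hBI
  have e1 := mmf_ncard hb
  have e2 := rrf_ncard D.lfin hb
  obtain ⟨m, hmm⟩ : ∃ m, m = D.LL.ncard := ⟨_, rfl⟩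
  rw [← hmm] at hbn e2 hm
  have e3 : (bas D k).ncard ≤ (n + 1) ^ (k + 2) := by
    refine hbn.trans ?_
    rw [pow_add]
    refine Nat.mul_le_mul_left _ ?_
    nlinarith
  have hc1 : 1 ≤ (n + 1) ^ (k + 2) * I := Nat.mul_pos (Nat.pow_pos (Nat.succ_pos n)) hI1
  have e4 : (bas D k).ncard * I ≤ (n + 1) ^ (k + 2) * I := Nat.mul_le_mul_right I e3
  refine ⟨MMf (bas D k), RRf D.LL (bas D k), ?_, ?_, ?_, ?_, ?_⟩
  · exact {
      nor := mmf_normal hN
      mtop := mmf_top _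
      mN := fun o ho => mmf_base (Or.inl (Or.inl ⟨o, ho, rfl⟩))
      mJ := fun s hs l hl => mmf_base (Or.inl (Or.inr ⟨l, hl, _, ha s hs, rfl⟩))
      mJ2 := fun s hs l hl t ht => mmf_base (Or.inr ⟨l, hl, t, ht, _, ha s hs, rfl⟩)
      mnx := fun M hM => mmf_nx hM
      rnor := rrf_normal D.LL hN
      rM := fun M hM => Or.inl (Or.inl (Or.inl (Or.inl hM)))
      roo := fun M hM l hl => Or.inl (Or.inl (Or.inl (Or.inr ⟨M, hM, l, hl, rfl⟩)))
      rnx := fun M hM l hl => Or.inl (Or.inl (Or.inr ⟨M, hM, l, hl, rfl⟩))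
      rbot := fun l hl => Or.inl (Or.inr ⟨l, hl, rfl⟩)
      rsup := fun l hl t ht => Or.inr ⟨l, hl, t, ht, rfl⟩ }
  · rw [← hI]
    exact mmf_index hI1 hb
  · rw [← hI]
    exact rrf_index hI1 hb hpr
  · rw [← hI]
    omega
  · rw [← hI]
    obtain ⟨c, hc⟩ : ∃ c, c = (n + 1) ^ (k + 2) * I := ⟨_, rfl⟩
    rw [← hc] at hc1 e4
    have e5 : (n + 1) ^ (k + 4) * I = c * ((n + 1) * (n + 1)) := by
      rw [hc]
      ring
    rw [e5]
    refine e2.trans ?_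
    have e6 : (1 + (bas D k).ncard * I) * (1 + 2 * m) ≤ (2 * c) * (1 + 2 * n) :=
      Nat.mul_le_mul (by omega) (by omega)
    have e7 : m * m ≤ n * n := Nat.mul_le_mul hm hm
    nlinarith [Nat.mul_le_mul hc1 (Nat.zero_le n), Nat.mul_le_mul_right n hc1,
      Nat.mul_le_mul_right (n * n) hc1]

end Pool.Agent.H81.SV
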