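import Pool.Agent.H81.SV.P4

/-!
# THEOREM SOLV (MP_576eff_lc), chapter (S3): irreducible solvable linear groups, the imprimitive case

`case1_core`: `H` solvable, acting faithfully and irreducibly on `V`, which has an `H`-invariant set of at least two orthogonal idempotents.
`case1`: the ring generated by an abelian normal subgroup has a nonzero element which is not injective.
-/

set_option autoImplicit false

namespace Pool.Agent.H81.SV

section cj

variable {H V : Type} [Group H] [AddCommGroup V] [DistribMulAction H V]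

/-- conjugation of an endomorphism -/
def cj (h : H) (f : AddMonoid.End V) : AddMonoid.End V where
  toFun v := h • f (h⁻¹ • v)
  map_zero' := by rw [smul_zero, map_zero, smul_zero]
  map_add' x y := by rw [smul_add, map_add, smul_add]

theorem cj_apply (h : H) (f : AddMonoid.End V) (v : V) : cj h f v = h • f (h⁻¹ • v) := rfl

theorem cj_one (f : AddMonoid.End V) : cj (1 : H) f = f := by
  ext v
  rw [cj_apply, inv_one, one_smul, one_smul]

theorem cj_mul (h k : H) (f : AddMonoid.End V) : cj (h * k) f = cj h (cj k f) := by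
  ext v
  rw [cj_apply, cj_apply, cj_apply, mul_inv_rev, mul_smul, mul_smul]

theorem cj_smul (h : H) (f : AddMonoid.End V) (v : V) : cj h f (h • v) = h • f v := by
  rw [cj_apply, inv_smul_smul]

theorem smul_cj (h : H) (f : AddMonoid.End V) (v : V) : f (h • v) = h • cj h⁻¹ f v := by
  rw [cj_apply, inv_inv, smul_inv_smul]

end cj

section core

variable {H V : Type} [Group H] [AddCommGroup V] [DistribMulAction H V]
  (Ω : Set (AddMonoid.End V)) (hcj : ∀ f ∈ Ω, ∀ h : H, cj h f ∈ Ω)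

/-- the action on the idempotents -/
@[reducible] private def actO : MulAction H Ω where
  smul h f := ⟨cj h f.1, hcj f.1 f.2 h⟩
  one_smul f := Subtype.ext (cj_one f.1)
  mul_smul h k f := Subtype.ext (cj_mul h k f.1)

variable (H) in
/-- the stabilizer of an endomorphism -/
private def stO (f : AddMonoid.End V) : Subgroup H where
  carrier := {h | cj h f = f}
  mul_mem' := by
    intro a b ha hb
    change cj (a * b) f = f
    change cj a f = f at ha
    change cj b f = f at hb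
    rw [cj_mul, hb, ha]
  one_mem' := cj_one f
  inv_mem' := by
    intro a ha
    change cj a⁻¹ f = f
    change cj a f = f at ha
    conv_lhs => rw [← ha]
    rw [← cj_mul, inv_mul_cancel, cj_one]

private theorem stO_map {f : AddMonoid.End V} {h : H} (hh : h ∈ stO H f) {v : V} (hv : v ∈ AddMonoidHom.range f) :
    h • v ∈ AddMonoidHom.range f := by
  obtain ⟨w, rfl⟩ := hv
  have h1 : cj h f = f := hh
  refine ⟨h • w, ?_⟩
  conv_lhs => rw [← h1]
  exact cj_smul h f w

/-- the action of the stabilizer on the range -/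
@[reducible] private def dmO (f : AddMonoid.End V) : DistribMulAction (stO H f) (AddMonoidHom.range f) where
  smul h w := ⟨(h : H) • (w : V), stO_map h.2 w.2⟩
  one_smul w := Subtype.ext (one_smul H (w : V))
  mul_smul h k w := Subtype.ext (mul_smul (h : H) (k : H) (w : V))
  smul_zero h := Subtype.ext (smul_zero (h : H))
  smul_add h w w' := Subtype.ext (smul_add (h : H) (w : V) (w' : V))

variable (H) in
/-- the elements which fix the endomorphism and its values -/
private def fxO (f : AddMonoid.End V) : Subgroup H where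
  carrier := {h | cj h f = f ∧ ∀ v, h • f v = f v}
  mul_mem' := by
    rintro a b ⟨ha, ha'⟩ ⟨hb, hb'⟩
    refine ⟨by rw [cj_mul, hb, ha], fun v => by rw [mul_smul, hb', ha']⟩
  one_mem' := ⟨cj_one f, fun v => one_smul H _⟩
  inv_mem' := by
    rintro a ⟨ha, ha'⟩
    refine ⟨?_, fun v => ?_⟩
    · conv_lhs => rw [← ha]
      rw [← cj_mul, inv_mul_cancel, cj_one]
    · rw [inv_smul_eq_iff, ha']

end core

/-- the induction hypothesis -/
def IHyp (c : ℕ) : Prop :=
  ∀ (G' V' : Type) [Group G'] [Finite G'] [Group.IsSolvable G'] [AddCommGroup V'] [Finite V'] [Nontrivial V']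
    [DistribMulAction G' V'],
    (∀ U : AddSubgroup V', (∀ g : G', ∀ u ∈ U, g • u ∈ U) → U = ⊥ ∨ U = ⊤) → Nat.card V' < c →
    4 * (MulAction.toPermHom G' V').ker.index ≤ Nat.card V' ^ 7

variable {H V : Type} [Group H] [AddCommGroup V] [DistribMulAction H V]

private theorem core_sum (hirr : ∀ U : AddSubgroup V, (∀ h : H, ∀ u ∈ U, h • u ∈ U) → U = ⊥ ∨ U = ⊤)
    (Ω : Finset (AddMonoid.End V)) (hid : ∀ f ∈ Ω, ∀ v, f (f v) = f v) (hne : ∀ f ∈ Ω, ∃ v, f v ≠ 0)
    (horth : ∀ f ∈ Ω, ∀ g ∈ Ω, f ≠ g → ∀ v, f (g v) = 0) (hcj : ∀ f ∈ Ω, ∀ h : H, cj h f ∈ Ω)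
    (h1 : Ω.Nonempty) (v : V) : ∑ f ∈ Ω, f v = v := by
  classical
  have hsg : ∀ g ∈ Ω, ∀ w, ∑ f ∈ Ω, f (g w) = g w := by
    intro g hg w
    rw [Finset.sum_eq_single_of_mem g hg fun f hf hfg => horth f hf g hg hfg w, hid g hg]
  obtain ⟨T, hT⟩ : ∃ T : AddSubgroup V, ∀ w, w ∈ T ↔ ∑ f ∈ Ω, f w = w := by
    refine ⟨{ carrier := {w | ∑ f ∈ Ω, f w = w}
              add_mem' := ?_
              zero_mem' := ?_
              neg_mem' := ?_ }, fun w => Iff.rfl⟩
    · intro a b ha hb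
      change ∑ f ∈ Ω, f (a + b) = a + b
      change ∑ f ∈ Ω, f a = a at ha
      change ∑ f ∈ Ω, f b = b at hb
      simp only [map_add]
      rw [Finset.sum_add_distrib, ha, hb]
    · change ∑ f ∈ Ω, f 0 = 0
      exact Finset.sum_eq_zero fun f _ => map_zero f
    · intro a ha
      change ∑ f ∈ Ω, f (-a) = -a
      change ∑ f ∈ Ω, f a = a at ha
      simp only [map_neg]
      rw [Finset.sum_neg_distrib, ha]
  have hTi : ∀ h : H, ∀ u ∈ T, h • u ∈ T := by
    intro h u hu
    rw [hT] at hu ⊢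
    have e1 : ∑ f ∈ Ω, f (h • u) = h • ∑ f ∈ Ω, cj h⁻¹ f u := by
      rw [Finset.smul_sum]
      exact Finset.sum_congr rfl fun f _ => smul_cj h f u
    have e2 : ∑ f ∈ Ω, cj h⁻¹ f u = ∑ f ∈ Ω, f u := by
      refine Finset.sum_bij' (fun f _ => cj h⁻¹ f) (fun f _ => cj h f) (fun f hf => hcj f hf _)
        (fun f hf => hcj f hf _) (fun f _ => ?_) (fun f _ => ?_) fun f _ => rfl
      · rw [← cj_mul, mul_inv_cancel, cj_one]
      · rw [← cj_mul, inv_mul_cancel, cj_one]
    rw [e1, e2, hu]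
  rcases hirr T hTi with h2 | h2
  · exfalso
    obtain ⟨f, hf⟩ := h1
    obtain ⟨w, hw⟩ := hne f hf
    have h3 : f w ∈ T := (hT _).2 (hsg f hf w)
    rw [h2, AddSubgroup.mem_bot] at h3
    exact hw h3
  · rw [← hT, h2]
    exact AddSubgroup.mem_top v

private theorem core_one (hirr : ∀ U : AddSubgroup V, (∀ h : H, ∀ u ∈ U, h • u ∈ U) → U = ⊥ ∨ U = ⊤)
    (Ω : Set (AddMonoid.End V)) (hid : ∀ f ∈ Ω, ∀ v, f (f v) = f v)
    (horth : ∀ f ∈ Ω, ∀ g ∈ Ω, f ≠ g → ∀ v, f (g v) = 0) (hcj : ∀ f ∈ Ω, ∀ h : H, cj h f ∈ Ω)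
    (f : AddMonoid.End V) (hf : f ∈ Ω) (U : AddSubgroup (AddMonoidHom.range f))
    (hU : ∀ g : stO H f, ∀ u ∈ U, (dmO f).toSMul.smul g u ∈ U) : U = ⊥ ∨ U = ⊤ := by
  obtain ⟨U', hU'⟩ : ∃ U' : AddSubgroup V, ∀ w, w ∈ U' ↔ ∃ hw : w ∈ AddMonoidHom.range f, (⟨w, hw⟩ : AddMonoidHom.range f) ∈ U := by
    refine ⟨U.map (AddMonoidHom.range f).subtype, fun w => ⟨?_, ?_⟩⟩
    · rintro ⟨u, hu, rfl⟩
      exact ⟨u.2, hu⟩
    · rintro ⟨hw, hu⟩
      exact ⟨⟨w, hw⟩, hu, rfl⟩
  obtain ⟨T, hT⟩ : ∃ T : AddSubgroup V, T = AddSubgroup.closure {w | ∃ h : H, ∃ u ∈ U', w = h • u} := ⟨_, rfl⟩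
  have hTi : ∀ h : H, ∀ u ∈ T, h • u ∈ T := by
    intro h u hu
    rw [hT] at hu ⊢
    induction hu using AddSubgroup.closure_induction with
    | mem x hx =>
      obtain ⟨k, u, hu, rfl⟩ := hx
      exact AddSubgroup.subset_closure ⟨h * k, u, hu, (mul_smul h k u).symm⟩
    | zero => rw [smul_zero]; exact AddSubgroup.zero_mem _
    | add x y _ _ hx hy => rw [smul_add]; exact AddSubgroup.add_mem _ hx hy
    | neg x _ hx => rw [smul_neg]; exact AddSubgroup.neg_mem _ hx
  have hfT : ∀ w ∈ T, f w ∈ U' := by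
    intro w hw
    rw [hT] at hw
    induction hw using AddSubgroup.closure_induction with
    | mem x hx =>
      obtain ⟨k, u, hu, rfl⟩ := hx
      obtain ⟨⟨v, hv⟩, hu2⟩ := (hU' u).1 hu
      have hfu : f u = u := by rw [← hv]; exact hid f hf v
      by_cases hk : cj k f = f
      · have h1 : f (k • u) = k • u := by
          conv_lhs => rw [← hk]
          rw [cj_smul, hfu]
        rw [h1, hU']
        exact ⟨stO_map hk ⟨v, hv⟩, hU ⟨k, hk⟩ _ hu2⟩
      · have h2 : cj k⁻¹ f ≠ f := by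
          intro h
          apply hk
          conv_lhs => rw [← h]
          rw [← cj_mul, mul_inv_cancel, cj_one]
        have h1 : f (k • u) = 0 := by
          rw [smul_cj, ← hfu, horth _ (hcj f hf _) f hf h2, smul_zero]
        rw [h1]
        exact AddSubgroup.zero_mem _
    | zero => rw [map_zero]; exact AddSubgroup.zero_mem _
    | add x y _ _ hx hy => rw [map_add]; exact AddSubgroup.add_mem _ hx hy
    | neg x _ hx => rw [map_neg]; exact AddSubgroup.neg_mem _ hx
  rcases hirr T hTi with h | h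
  · left
    rw [eq_bot_iff]
    intro u hu
    have h1 : (u : V) ∈ T := by
      rw [hT]
      exact AddSubgroup.subset_closure ⟨1, u, (hU' _).2 ⟨u.2, hu⟩, (one_smul H _).symm⟩
    rw [h, AddSubgroup.mem_bot] at h1
    rw [AddSubgroup.mem_bot]
    exact Subtype.ext h1
  · right
    rw [eq_top_iff]
    rintro ⟨u, v, rfl⟩ _
    obtain ⟨hw, h2⟩ := (hU' _).1 (hfT v (by rw [h]; exact AddSubgroup.mem_top v))
    exact h2

theorem case1_core [Finite H] [Finite V] [Group.IsSolvable H] (hfa : ∀ h : H, (∀ v : V, h • v = v) → h = 1)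
    (hirr : ∀ U : AddSubgroup V, (∀ h : H, ∀ u ∈ U, h • u ∈ U) → U = ⊥ ∨ U = ⊤)
    (Ω : Finset (AddMonoid.End V)) (hid : ∀ f ∈ Ω, ∀ v, f (f v) = f v) (hne : ∀ f ∈ Ω, ∃ v, f v ≠ 0)
    (horth : ∀ f ∈ Ω, ∀ g ∈ Ω, f ≠ g → ∀ v, f (g v) = 0) (hcj : ∀ f ∈ Ω, ∀ h : H, cj h f ∈ Ω)
    (h2 : 2 ≤ Ω.card) (IH : IHyp (Nat.card V)) : 4 * Nat.card H ≤ Nat.card V ^ 7 := by
  classical
  have hΩne : Ω.Nonempty := by
    rw [← Finset.card_pos]
    omega
  have hsum := core_sum hirr Ω hid hne horth hcj hΩne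
  have hcj' : ∀ f ∈ (Ω : Set (AddMonoid.End V)), ∀ h : H, cj h f ∈ (Ω : Set (AddMonoid.End V)) := hcj
  -- the product of the orders of the ranges
  have hprod : ∏ f : Ω, Nat.card (AddMonoidHom.range f.1) ≤ Nat.card V := by
    rw [← Nat.card_pi]
    refine Nat.card_le_card_of_injective (fun w : (∀ f : Ω, AddMonoidHom.range f.1) => ∑ f : Ω, (w f : V)) ?_
    intro w w' hww
    have key : ∀ w : (∀ f : Ω, AddMonoidHom.range f.1), ∀ g : Ω, g.1 (∑ f : Ω, (w f : V)) = w g := by
      intro w g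
      rw [map_sum, Finset.sum_eq_single g]
      · obtain ⟨v, hv⟩ := (w g).2
        rw [← hv]
        exact hid g.1 g.2 v
      · intro f _ hfg
        obtain ⟨v, hv⟩ := (w f).2
        rw [← hv]
        exact horth g.1 g.2 f.1 f.2 (fun h => hfg (Subtype.ext h.symm)) v
      · intro h
        exact absurd (Finset.mem_univ g) h
    funext g
    apply Subtype.ext
    have h3 := key w g
    have h4 := key w' g
    have h5 : (∑ f : Ω, (w f : V)) = ∑ f : Ω, (w' f : V) := hww
    rw [← h3, ← h4, h5]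
  -- the range of each idempotent is proper and nonzero
  have hlt : ∀ f : Ω, Nat.card (AddMonoidHom.range f.1) < Nat.card V := by
    intro f
    obtain ⟨g, hg, hgf⟩ := Finset.exists_mem_ne (by omega : 1 < Ω.card) f.1
    obtain ⟨v, hv⟩ := hne g hg
    have h3 : g v ∉ AddMonoidHom.range f.1 := by
      rintro ⟨u, hu⟩
      have hu' : f.1 u = g v := hu
      have h4 : f.1 (f.1 u) = f.1 u := hid f.1 f.2 u
      have h5 : f.1 (g v) = 0 := horth f.1 f.2 g hg hgf.symm v
      exact hv (by rw [← hu', ← h4, hu', h5])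
    exact Finite.card_subtype_lt h3
  have hnt : ∀ f : Ω, Nontrivial (AddMonoidHom.range f.1) := by
    intro f
    obtain ⟨v, hv⟩ := hne f.1 f.2
    refine ⟨⟨⟨f.1 v, v, rfl⟩, 0, fun h => hv (congrArg Subtype.val h)⟩⟩
  -- the induction hypothesis
  have hIH : ∀ f : Ω, 4 * (fxO H f.1).relIndex (stO H f.1) ≤ Nat.card (AddMonoidHom.range f.1) ^ 7 := by
    intro f
    have hnt' := hnt f
    let _ := dmO (H := H) f.1
    have h3 := IH (stO H f.1) (AddMonoidHom.range f.1)
      (fun U hU => core_one hirr (Ω : Set (AddMonoid.End V)) hid horth hcj' f.1 f.2 U hU) (hlt f)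
    have h4 : (MulAction.toPermHom (stO H f.1) (AddMonoidHom.range f.1)).ker = (fxO H f.1).subgroupOf (stO H f.1) := by
      ext g
      rw [MonoidHom.mem_ker, Subgroup.mem_subgroupOf]
      constructor
      · intro hg
        refine ⟨g.2, fun v => ?_⟩
        have h5 := Equiv.congr_fun hg ⟨f.1 v, v, rfl⟩
        exact congrArg Subtype.val h5
      · intro hg
        refine Equiv.ext fun u => ?_
        obtain ⟨u, v, rfl⟩ := u
        exact Subtype.ext (hg.2 v)
    rw [h4] at h3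
    exact h3
  -- the kernel on the idempotents
  let _ := actO (H := H) (Ω : Set (AddMonoid.End V)) hcj'
  obtain ⟨K, hK⟩ : ∃ K, K = (MulAction.toPermHom H (Ω : Set (AddMonoid.End V))).ker := ⟨_, rfl⟩
  have hcardΩ : Nat.card (Ω : Set (AddMonoid.End V)) = Ω.card := by simp
  have hfinΩ : Finite (Ω : Set (AddMonoid.End V)) := Finset.finite_toSet Ω
  have hneΩ : Nonempty (Ω : Set (AddMonoid.End V)) := hΩne.to_subtype
  have hKi : K.index ≤ 4 ^ (Ω.card - 1) := by
    rw [hK, ← hcardΩ]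
    exact act4 H (Ω : Set (AddMonoid.End V))
  have hKst : ∀ f : Ω, K ≤ stO H f.1 := by
    intro f h hh
    rw [hK, MonoidHom.mem_ker] at hh
    have h5 := Equiv.congr_fun hh (⟨f.1, f.2⟩ : (Ω : Set (AddMonoid.End V)))
    exact congrArg Subtype.val h5
  have hrel : ∀ f : Ω, 4 * (fxO H f.1).relIndex K ≤ Nat.card (AddMonoidHom.range f.1) ^ 7 := by
    intro f
    refine le_trans (Nat.mul_le_mul_left _ ?_) (hIH f)
    exact Subgroup.relIndex_le_of_le_right (hKst f) Subgroup.index_ne_zero_of_finite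
  have hbot : (⨅ f : Ω, fxO H f.1) = ⊥ := by
    rw [eq_bot_iff]
    intro h hh
    rw [Subgroup.mem_bot]
    apply hfa
    intro v
    have h6 : ∀ f ∈ Ω, h • f v = f v := by
      intro f hf
      exact ((Subgroup.mem_iInf.1 hh) ⟨f, hf⟩).2 v
    rw [← hsum v, Finset.smul_sum]
    exact Finset.sum_congr rfl fun f hf => h6 f hf
  have hKc : Nat.card K ≤ ∏ f : Ω, (fxO H f.1).relIndex K := by
    rw [← Subgroup.relIndex_bot_left, ← hbot]
    exact Subgroup.relIndex_iInf_le _
  have hcardH : Nat.card H = Nat.card K * K.index := (Subgroup.card_mul_index K).symm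
  have h7 : 4 ^ Ω.card = ∏ _f : Ω, 4 := by
    rw [Finset.prod_const, Finset.card_univ, Fintype.card_coe]
  calc 4 * Nat.card H = 4 * K.index * Nat.card K := by rw [hcardH]; ring
    _ ≤ 4 ^ Ω.card * ∏ f : Ω, (fxO H f.1).relIndex K := by
        refine Nat.mul_le_mul ?_ hKc
        refine (Nat.mul_le_mul_left 4 hKi).trans ?_
        rw [← pow_succ']
        exact Nat.pow_le_pow_right (by norm_num) (by omega)
    _ = ∏ f : Ω, (4 * (fxO H f.1).relIndex K) := by
        rw [h7, ← Finset.prod_mul_distrib]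
    _ ≤ ∏ f : Ω, Nat.card (AddMonoidHom.range f.1) ^ 7 := Finset.prod_le_prod' fun f _ => hrel f
    _ = (∏ f : Ω, Nat.card (AddMonoidHom.range f.1)) ^ 7 := Finset.prod_pow _ _ _
    _ ≤ Nat.card V ^ 7 := Nat.pow_le_pow_left hprod 7

section ring

private theorem cj_nul (h : H) : cj h (0 : AddMonoid.End V) = 0 := by
  ext v
  exact smul_zero h

private theorem cj_id (h : H) : cj h (1 : AddMonoid.End V) = 1 := by
  ext v
  exact smul_inv_smul h v

private theorem cj_add (h : H) (f g : AddMonoid.End V) : cj h (f + g) = cj h f + cj h g := by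
  ext v
  exact smul_add h _ _

private theorem cj_neg (h : H) (f : AddMonoid.End V) : cj h (-f) = -cj h f := by
  ext v
  exact smul_neg h _

private theorem cj_comp (h : H) (f g : AddMonoid.End V) : cj h (f * g) = cj h f * cj h g := by
  ext v
  change h • f (g (h⁻¹ • v)) = h • f (h⁻¹ • (h • g (h⁻¹ • v)))
  rw [inv_smul_smul]

private theorem cj_pow (h : H) (f : AddMonoid.End V) (n : ℕ) : cj h (f ^ n) = cj h f ^ n := by
  induction n with
  | zero => rw [pow_zero, pow_zero, cj_id]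
  | succ n ih => rw [pow_succ, pow_succ, cj_comp, ih]

private theorem cj_inv (h : H) (f g : AddMonoid.End V) (hfg : cj h f = g) : f = cj h⁻¹ g := by
  rw [← hfg, ← cj_mul, inv_mul_cancel, cj_one]

private theorem pow_idem {M : Type} [Monoid M] [Finite M] (x : M) : ∃ n, 1 ≤ n ∧ x ^ n * x ^ n = x ^ n := by
  obtain ⟨i, j, hij, hx⟩ : ∃ i j, i < j ∧ x ^ i = x ^ j := by
    obtain ⟨i, j, hij, h⟩ := Finite.exists_ne_map_eq_of_infinite (fun n : ℕ => x ^ n)
    rcases lt_or_gt_of_ne hij with h1 | h1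
    · exact ⟨i, j, h1, h⟩
    · exact ⟨j, i, h1, h.symm⟩
  obtain ⟨d, hd⟩ : ∃ d, d = j - i := ⟨_, rfl⟩
  have hj : j = i + d := by omega
  have hd0 : 1 ≤ d := by omega
  have h1 : ∀ m, i ≤ m → ∀ k, x ^ (m + d * k) = x ^ m := by
    intro m hm k
    induction k with
    | zero => rw [mul_zero, add_zero]
    | succ k ih =>
      have h2 : m + d * (k + 1) = (i + d) + ((m - i) + d * k) := by
        rw [mul_add, mul_one]
        omega
      have h3 : m + d * k = i + ((m - i) + d * k) := by omega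
      rw [h2, pow_add, ← hj, ← hx, ← pow_add, ← h3, ih]
  refine ⟨d * (i + 1), ?_, ?_⟩
  · have : 1 ≤ i + 1 := by omega
    nlinarith
  · rw [← pow_add]
    refine h1 (d * (i + 1)) ?_ (i + 1)
    nlinarith

/-- the ring has no nilpotent elements -/
private theorem nilfree [Finite V] [Nontrivial V]
    (hirr : ∀ U : AddSubgroup V, (∀ h : H, ∀ u ∈ U, h • u ∈ U) → U = ⊥ ∨ U = ⊤)
    (R : Subring (AddMonoid.End V)) (hR : ∀ x ∈ R, ∀ y ∈ R, x * y = y * x) (hRc : ∀ x ∈ R, ∀ h : H, cj h x ∈ R)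
    (x : AddMonoid.End V) (hx : x ∈ R) (n : ℕ) (hn : x ^ n = 0) : x = 0 := by
  obtain ⟨V0, hV0⟩ : ∃ V0 : AddSubgroup V, ∀ v, v ∈ V0 ↔ ∀ x ∈ R, (∃ n : ℕ, x ^ n = 0) → x v = 0 := by
    refine ⟨{ carrier := {v | ∀ x ∈ R, (∃ n : ℕ, x ^ n = 0) → x v = 0}
              add_mem' := ?_
              zero_mem' := ?_
              neg_mem' := ?_ }, fun w => Iff.rfl⟩
    · intro a b ha hb x hx hn
      rw [map_add, ha x hx hn, hb x hx hn, add_zero]
    · intro x _ _
      exact map_zero x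
    · intro a ha x hx hn
      rw [map_neg, ha x hx hn, neg_zero]
  have hinv : ∀ h : H, ∀ u ∈ V0, h • u ∈ V0 := by
    intro h u hu
    rw [hV0] at hu ⊢
    rintro x hx ⟨n, hn⟩
    rw [smul_cj, hu _ (hRc x hx h⁻¹) ⟨n, by rw [← cj_pow, hn, cj_nul]⟩, smul_zero]
  rcases hirr V0 hinv with h | h
  · exfalso
    obtain ⟨S, hS⟩ : ∃ S : Set (AddSubgroup V), S = {U | U ≠ ⊥ ∧ ∀ x ∈ R, ∀ u ∈ U, x u ∈ U} := ⟨_, rfl⟩
    have hSn : S.Nonempty := by
      refine ⟨⊤, ?_⟩
      rw [hS]
      exact ⟨top_ne_bot, fun _ _ _ _ => AddSubgroup.mem_top _⟩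
    obtain ⟨U, hU, hmin⟩ := (Set.toFinite S).exists_minimal hSn
    rw [hS] at hU
    apply hU.1
    rw [eq_bot_iff, ← h]
    intro u hu
    rw [hV0]
    rintro x hx ⟨n, hn⟩
    by_contra hxu
    obtain ⟨W, hW⟩ : ∃ W : AddSubgroup V, W = U.map x := ⟨_, rfl⟩
    have hWU : W ≤ U := by
      rw [hW]
      rintro _ ⟨w, hw, rfl⟩
      exact hU.2 x hx w hw
    have hWS : W ∈ S := by
      rw [hS]
      refine ⟨fun h0 => hxu ?_, ?_⟩
      · have h1 : x u ∈ W := by rw [hW]; exact ⟨u, hu, rfl⟩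
        rw [h0, AddSubgroup.mem_bot] at h1
        exact h1
      · rw [hW]
        rintro y hy _ ⟨w, hw, rfl⟩
        refine ⟨y w, hU.2 y hy w hw, ?_⟩
        have h1 := DFunLike.congr_fun (hR x hx y hy) w
        exact h1
    have hUW : U ≤ W := hmin hWS hWU
    have hpow : ∀ m : ℕ, ∀ w ∈ U, ∃ w' ∈ U, (x ^ m) w' = w := by
      intro m
      induction m with
      | zero => exact fun w hw => ⟨w, hw, rfl⟩
      | succ m ih =>
        intro w hw
        obtain ⟨w1, hw1, h1⟩ := ih w hw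
        have h2 := hUW hw1
        rw [hW] at h2
        obtain ⟨w2, hw2, h3⟩ := h2
        refine ⟨w2, hw2, ?_⟩
        rw [pow_succ, ← h1, ← h3]
        rfl
    obtain ⟨w', _, h4⟩ := hpow n u hu
    rw [hn] at h4
    apply hxu
    have h5 : (0 : V) = u := h4
    rw [← h5, map_zero]
  · ext v
    exact (hV0 v).1 (by rw [h]; exact AddSubgroup.mem_top v) x hx ⟨n, hn⟩

end ring

/-- THEOREM I, CASE 1 -/
theorem case1 {H V : Type} [Group H] [Finite H] [Group.IsSolvable H] [AddCommGroup V] [Finite V] [Nontrivial V]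
    [DistribMulAction H V]
    (hf : ∀ h : H, (∀ v : V, h • v = v) → h = 1)
    (hirr : ∀ U : AddSubgroup V, (∀ h : H, ∀ u ∈ U, h • u ∈ U) → U = ⊥ ∨ U = ⊤)
    (A : Subgroup H) (hA : A.Normal) (hc : ∀ x ∈ A, ∀ y ∈ A, x * y = y * x)
    (r : AddMonoid.End V) (hr : r ∈ Subring.closure {f : AddMonoid.End V | ∃ a ∈ A, ∀ v, f v = a • v})
    (hr0 : r ≠ 0) (hri : ¬ Function.Injective r)
    (IH : ∀ (G' V' : Type) [Group G'] [Finite G'] [Group.IsSolvable G'] [AddCommGroup V'] [Finite V'] [Nontrivial V']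
      [DistribMulAction G' V'],
      (∀ U : AddSubgroup V', (∀ g : G', ∀ u ∈ U, g • u ∈ U) → U = ⊥ ∨ U = ⊤) → Nat.card V' < Nat.card V →
      4 * (MulAction.toPermHom G' V').ker.index ≤ Nat.card V' ^ 7) :
    4 * Nat.card H ≤ Nat.card V ^ 7 := by
  classical
  obtain ⟨R, hRdef⟩ : ∃ R, R = Subring.closure {f : AddMonoid.End V | ∃ a ∈ A, ∀ v, f v = a • v} := ⟨_, rfl⟩
  rw [← hRdef] at hr
  have hR : ∀ x ∈ R, ∀ y ∈ R, x * y = y * x := by
    intro x hx y hy
    rw [hRdef] at hx hy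
    have h1 := (Subring.isMulCommutative_closure (s := {f : AddMonoid.End V | ∃ a ∈ A, ∀ v, f v = a • v}) (by
      rintro f ⟨a, ha, haf⟩ g ⟨b, hb, hbg⟩
      ext v
      change f (g v) = g (f v)
      rw [haf, hbg, haf, hbg, ← mul_smul, hc a ha b hb, mul_smul])).is_comm.comm ⟨x, hx⟩ ⟨y, hy⟩
    exact congrArg Subtype.val h1
  have hRc : ∀ x ∈ R, ∀ h : H, cj h x ∈ R := by
    intro x hx h
    rw [hRdef] at hx ⊢
    induction hx using Subring.closure_induction with
    | mem f hf =>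
      obtain ⟨a, ha, haf⟩ := hf
      refine Subring.subset_closure ⟨h * a * h⁻¹, hA.conj_mem a ha h, fun v => ?_⟩
      rw [cj_apply, haf, mul_smul, mul_smul]
    | zero => rw [cj_nul]; exact Subring.zero_mem _
    | one => rw [cj_id]; exact Subring.one_mem _
    | add x y _ _ hx hy => rw [cj_add]; exact Subring.add_mem _ hx hy
    | neg x _ hx => rw [cj_neg]; exact Subring.neg_mem _ hx
    | mul x y _ _ hx hy => rw [cj_comp]; exact Subring.mul_mem _ hx hy
  have hfin : Finite (AddMonoid.End V) :=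
    Finite.of_injective (fun f : AddMonoid.End V => (f : V → V)) DFunLike.coe_injective
  -- a proper idempotent
  obtain ⟨n, hn, he0⟩ := pow_idem r
  have hrn : r ^ n ∈ R := Subring.pow_mem R hr n
  have hrn0 : r ^ n ≠ 0 := fun h => hr0 (nilfree hirr R hR hRc r hr n h)
  have hrni : ¬ Function.Surjective (r ^ n) := by
    intro hs
    have h1 : Function.Injective (r ^ n) := Finite.injective_iff_surjective.2 hs
    apply hri
    obtain ⟨m, rfl⟩ : ∃ m, n = m + 1 := ⟨n - 1, by omega⟩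
    intro x y hxy
    apply h1
    rw [pow_succ]
    change (r ^ m) (r x) = (r ^ m) (r y)
    rw [hxy]
  -- the minimal idempotents
  obtain ⟨S, hS⟩ : ∃ S : Set (AddMonoid.End V), S = {f | f ∈ R ∧ f ≠ 0 ∧ f * f = f} := ⟨_, rfl⟩
  have hSne : S.Nonempty := ⟨r ^ n, by rw [hS]; exact ⟨hrn, hrn0, he0⟩⟩
  obtain ⟨e, heS, hmin⟩ := Set.exists_min_image S (fun f => Nat.card (AddMonoidHom.range f)) (Set.toFinite S) hSne
  rw [hS] at heS
  obtain ⟨heR, he0', hee⟩ := heS
  have hcard : ∀ h : H, Nat.card (AddMonoidHom.range (cj h e)) = Nat.card (AddMonoidHom.range e) := by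
    intro h
    refine Nat.card_congr ⟨fun w => ⟨h⁻¹ • (w : V), ?_⟩, fun w => ⟨h • (w : V), ?_⟩, fun w => ?_, fun w => ?_⟩
    · obtain ⟨v, hv⟩ := w.2
      refine ⟨h⁻¹ • v, ?_⟩
      rw [← hv]
      change e (h⁻¹ • v) = h⁻¹ • (h • e (h⁻¹ • v))
      rw [inv_smul_smul]
    · obtain ⟨v, hv⟩ := w.2
      refine ⟨h • v, ?_⟩
      rw [← hv]
      change h • e (h⁻¹ • (h • v)) = h • e v
      rw [inv_smul_smul]
    · exact Subtype.ext (smul_inv_smul h _)
    · exact Subtype.ext (inv_smul_smul h _)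
  obtain ⟨Ω, hΩ⟩ : ∃ Ω : Finset (AddMonoid.End V), ∀ f, f ∈ Ω ↔ ∃ h : H, cj h e = f := by
    refine ⟨(Set.finite_range fun h : H => cj h e).toFinset, fun f => ?_⟩
    rw [Set.Finite.mem_toFinset, Set.mem_range]
  have hΩR : ∀ f ∈ Ω, f ∈ R ∧ f ≠ 0 ∧ f * f = f ∧ Nat.card (AddMonoidHom.range f) = Nat.card (AddMonoidHom.range e) := by
    intro f hf
    obtain ⟨h, rfl⟩ := (hΩ f).1 hf
    refine ⟨hRc e heR h, fun h0 => he0' ?_, by rw [← cj_comp, hee], hcard h⟩
    rw [cj_inv h e 0 h0, cj_nul]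
  have hmul : ∀ f ∈ Ω, ∀ g ∈ Ω, f * g ≠ 0 → f * g = f := by
    intro f hf g hg hfg
    obtain ⟨h1, h2, h3, h4⟩ := hΩR f hf
    obtain ⟨h5, h6, h7, h8⟩ := hΩR g hg
    have h9 : (f * g) * (f * g) = f * g := by
      calc (f * g) * (f * g) = f * (g * f) * g := by simp only [mul_assoc]
        _ = f * (f * g) * g := by rw [hR g h5 f h1]
        _ = (f * f) * (g * g) := by simp only [mul_assoc]
        _ = f * g := by rw [h3, h7]
    have h10 : f * g ∈ S := by
      rw [hS]
      exact ⟨Subring.mul_mem R h1 h5, hfg, h9⟩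
    have h11 := hmin _ h10
    have h12 : AddMonoidHom.range (f * g) ≤ AddMonoidHom.range f := by
      rintro _ ⟨v, rfl⟩
      exact ⟨g v, rfl⟩
    have h13 : AddMonoidHom.range (f * g) = AddMonoidHom.range f := by
      refine AddSubgroup.eq_of_le_of_card_ge h12 ?_
      rw [h4]
      exact h11
    have h14 : (f * g) * f = f := by
      ext v
      have h15 : f v ∈ AddMonoidHom.range (f * g) := by
        rw [h13]
        exact ⟨v, rfl⟩
      obtain ⟨w, hw⟩ := h15
      change (f * g) (f v) = f v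
      rw [← hw]
      exact DFunLike.congr_fun h9 w
    calc f * g = (f * f) * g := by rw [h3]
      _ = f * (g * f) := by rw [mul_assoc, hR g h5 f h1]
      _ = f := by rw [← mul_assoc, h14]
  have hzero : ∀ f ∈ Ω, ∀ g ∈ Ω, f ≠ g → f * g = 0 := by
    intro f hf g hg hne
    by_contra h
    apply hne
    have h1 := hmul f hf g hg h
    have h2 := hR f (hΩR f hf).1 g (hΩR g hg).1
    have h3 := hmul g hg f hf (by rw [← h2]; exact h)
    rw [← h1, h2, h3]
  have hΩcj : ∀ f ∈ Ω, ∀ h : H, cj h f ∈ Ω := by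
    intro f hf h
    obtain ⟨k, rfl⟩ := (hΩ f).1 hf
    rw [hΩ]
    exact ⟨h * k, cj_mul h k e⟩
  have heΩ : e ∈ Ω := (hΩ e).2 ⟨1, cj_one e⟩
  have h2 : 2 ≤ Ω.card := by
    by_contra hlt
    have h1 : Ω.card ≤ 1 := by omega
    rw [Finset.card_le_one] at h1
    have h3 : ∀ h : H, cj h e = e := fun h => h1 _ (hΩcj e heΩ h) _ heΩ
    have h4 : AddMonoidHom.range e = ⊥ ∨ AddMonoidHom.range e = ⊤ := by
      refine hirr _ ?_
      rintro h _ ⟨v, rfl⟩
      refine ⟨h • v, ?_⟩
      have h5 := cj_smul h e v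
      rw [h3] at h5
      exact h5
    rcases h4 with h4 | h4
    · apply he0'
      ext v
      have h5 : e v ∈ AddMonoidHom.range e := ⟨v, rfl⟩
      rw [h4, AddSubgroup.mem_bot] at h5
      exact h5
    · have h5 := hmin (r ^ n) (by rw [hS]; exact ⟨hrn, hrn0, he0⟩)
      rw [h4] at h5
      have h6 : AddMonoidHom.range (r ^ n) = ⊤ := by
        refine AddSubgroup.eq_top_of_le_card _ ?_
        rw [← AddSubgroup.card_top (G := V)]
        exact h5
      exact hrni (AddMonoidHom.range_eq_top.1 h6)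
  refine case1_core hf hirr Ω (fun f hf v => ?_) (fun f hf => ?_) (fun f hf g hg hne v => ?_) hΩcj h2 IH
  · exact DFunLike.congr_fun (hΩR f hf).2.2.1 v
  · by_contra h
    push Not at h
    exact (hΩR f hf).2.1 (by ext v; exact h v)
  · exact DFunLike.congr_fun (hzero f hf g hg hne) v

end Pool.Agent.H81.SV
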