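import Pool.Agent.H81.SV.Tr

/-!
# THEOREM SOLV (MP_576eff_lc), chapter (S3): maximal subgroups, the order of a solvable group of permutations

`prim_data`: the regular normal subgroup of a primitive solvable group. `prim_quot`: the quotient by the core of a maximal subgroup.
`tr_om`: the number of the primes of the index of a core, with the bound for maximal subgroups as a parameter.
`core4`: the index of the core of a subgroup of index `d` in a solvable group is at most `4 ^ (d - 1)`. `act4`: the order of a solvable group of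
permutations of `k ≥ 1` points is at most `4 ^ (k - 1)`.
-/

set_option autoImplicit false

namespace Pool.Agent.H81.SV

/-- the quotient by the core of a maximal subgroup -/
theorem prim_quot {G : Type} [Group G] [Finite G] [Group.IsSolvable G] {M : Subgroup G} (hM : IsCoatom M) :
    ∃ (Q : Type) (_ : Group Q) (_ : Finite Q) (_ : Group.IsSolvable Q) (M' : Subgroup Q),
      IsCoatom M' ∧ M'.normalCore = ⊥ ∧ M'.index = M.index ∧ Nat.card Q = M.normalCore.index := by
  obtain ⟨K, hK⟩ : ∃ K, K = M.normalCore := ⟨_, rfl⟩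
  have hKn : K.Normal := by rw [hK]; exact Subgroup.normalCore_normal M
  have hKM : K ≤ M := by rw [hK]; exact Subgroup.normalCore_le M
  obtain ⟨f, hf⟩ : ∃ f, f = QuotientGroup.mk' K := ⟨_, rfl⟩
  have hfs : Function.Surjective f := by rw [hf]; exact QuotientGroup.mk'_surjective K
  have hfk : f.ker = K := by rw [hf]; exact QuotientGroup.ker_mk' K
  have hcm : (M.map f).comap f = M := by
    rw [Subgroup.comap_map_eq, hfk]
    exact sup_eq_left.2 hKM
  refine ⟨G ⧸ K, inferInstance, inferInstance, inferInstance, M.map f, ?_, ?_, ?_, by rw [← hK]; rfl⟩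
  · constructor
    · intro h
      apply hM.1
      rw [← hcm, h, Subgroup.comap_top]
    · intro X hX
      have h1 : M < X.comap f := by
        refine lt_of_le_of_ne ?_ ?_
        · rw [← hcm]
          exact Subgroup.comap_mono hX.le
        · intro h
          apply hX.ne
          rw [h, Subgroup.map_comap_eq_self_of_surjective hfs]
      have h2 := hM.2 _ h1
      rw [← Subgroup.map_comap_eq_self_of_surjective hfs X, h2, ← MonoidHom.range_eq_map,
        MonoidHom.range_eq_top.2 hfs]
  · have h1 : ((M.map f).normalCore).comap f ≤ M :=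
      (Subgroup.comap_mono (Subgroup.normalCore_le (M.map f))).trans hcm.le
    have h2 : (((M.map f).normalCore).comap f).Normal :=
      (Subgroup.normalCore_normal (M.map f)).comap f
    have h3 : ((M.map f).normalCore).comap f ≤ K :=
      (Subgroup.normal_le_normalCore.2 h1).trans hK.ge
    rw [← Subgroup.map_comap_eq_self_of_surjective hfs (M.map f).normalCore, Subgroup.map_eq_bot_iff, hfk]
    exact h3
  · rw [← Subgroup.index_comap_of_surjective _ hfs, hcm]

private theorem p4_bot {G : Type} [Group G] {M X V : Subgroup G} (hc : M.normalCore = ⊥) (htop : V ⊔ M = ⊤)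
    (h1 : ∀ m ∈ M, ∀ x ∈ X, m * x * m⁻¹ ∈ X) (h2 : ∀ v ∈ V, ∀ x ∈ X, v * x * v⁻¹ ∈ X) :
    X.Normal ∧ (X ≤ M → X = ⊥) := by
  have key : ∀ W : Subgroup G, (∀ w ∈ W, ∀ x ∈ X, w * x * w⁻¹ ∈ X) → W ≤ Subgroup.normalizer (X : Set G) := by
    intro W hW w hw
    rw [Subgroup.mem_normalizer_iff]
    intro x
    refine ⟨fun hx => hW w hw x hx, fun hx => ?_⟩
    have h3 := hW w⁻¹ (W.inv_mem hw) _ hx
    have h4 : w⁻¹ * (w * x * w⁻¹) * w⁻¹⁻¹ = x := by group
    rwa [h4] at h3
  have hN : X.Normal := by
    rw [← Subgroup.normalizer_eq_top_iff, eq_top_iff, ← htop]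
    exact sup_le (key V h2) (key M h1)
  refine ⟨hN, fun hX => ?_⟩
  have h3 : X ≤ M.normalCore := Subgroup.normal_le_normalCore.2 hX
  rw [hc] at h3
  exact le_bot_iff.1 h3

/-- the regular normal subgroup of a primitive solvable group -/
theorem prim_data {G : Type} [Group G] [Finite G] [Group.IsSolvable G] {M : Subgroup G} (hM : IsCoatom M)
    (hc : M.normalCore = ⊥) : ∃ V : Subgroup G, V.Normal ∧ V ≠ ⊥ ∧ (∀ x ∈ V, ∀ y ∈ V, x * y = y * x) ∧
      V ⊓ M = ⊥ ∧ V ⊔ M = ⊤ ∧ M.index = Nat.card V ∧ (∃ r a, r.Prime ∧ Nat.card V = r ^ a) ∧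
      M ⊓ Subgroup.centralizer (V : Set G) = ⊥ ∧
      ∀ U : Subgroup G, U ≤ V → (∀ m ∈ M, ∀ u ∈ U, m * u * m⁻¹ ∈ U) → U = ⊥ ∨ U = V := by
  have hnt : Nontrivial G := by
    rw [← not_subsingleton_iff_nontrivial]
    intro h
    exact hM.1 (Subsingleton.elim M ⊤)
  obtain ⟨V, hVn, hV1, hVc, r, a, hr, hVr⟩ := nor_ab (Q := G)
  have hnot : ∀ W : Subgroup G, W.Normal → W ≠ ⊥ → W ⊔ M = ⊤ := by
    intro W hW hW1
    have hWM : ¬ W ≤ M := by
      intro h
      have h1 : W ≤ M.normalCore := Subgroup.normal_le_normalCore.2 h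
      rw [hc] at h1
      exact hW1 (le_bot_iff.1 h1)
    refine hM.2 _ (lt_of_le_of_ne le_sup_right fun h => hWM ?_)
    rw [h]
    exact le_sup_left
  have htop := hnot V hVn hV1
  have hinf : V ⊓ M = ⊥ := by
    refine (p4_bot hc htop (fun m hm x hx => ?_) (fun v hv x hx => ?_)).2 inf_le_right
    · exact ⟨hVn.conj_mem x hx.1 m, M.mul_mem (M.mul_mem hm hx.2) (M.inv_mem hm)⟩
    · rw [hVc v hv x hx.1, mul_inv_cancel_right]
      exact hx
  have hcompW : ∀ W : Subgroup G, W.Normal → W ≤ V → W ⊔ M = ⊤ → M.index = Nat.card W := by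
    intro W hW hWV hWt
    have hcomp : Subgroup.IsComplement' W M := by
      refine Subgroup.isComplement'_of_disjoint_and_mul_eq_univ (disjoint_iff.2 ?_) ?_
      · rw [eq_bot_iff, ← hinf]
        exact inf_le_inf_right M hWV
      · rw [← Subgroup.normal_mul, hWt, Subgroup.coe_top]
    exact hcomp.index_eq_card
  have hker : M ⊓ Subgroup.centralizer (V : Set G) = ⊥ := by
    have hcn : (Subgroup.centralizer (V : Set G)).Normal := inferInstance
    refine (p4_bot hc htop (fun m hm x hx => ?_) (fun v hv x hx => ?_)).2 inf_le_left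
    · exact ⟨M.mul_mem (M.mul_mem hm hx.1) (M.inv_mem hm), hcn.conj_mem x hx.2 m⟩
    · have h1 : v * x = x * v := (Subgroup.mem_centralizer_iff.1 hx.2) v hv
      rw [h1, mul_inv_cancel_right]
      exact hx
  refine ⟨V, hVn, hV1, hVc, hinf, htop, hcompW V hVn le_rfl htop, ⟨r, a, hr, hVr⟩, hker, fun U hU hUM => ?_⟩
  by_cases hU1 : U = ⊥
  · exact Or.inl hU1
  · right
    have hUn : U.Normal := (p4_bot hc htop hUM (fun v hv x hx => by
      rw [hVc v hv x (hU hx), mul_inv_cancel_right]
      exact hx)).1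
    have h1 := hcompW U hUn hU (hnot U hUn hU1)
    have h2 := hcompW V hVn le_rfl htop
    exact Subgroup.eq_of_le_of_card_ge hU (by rw [← h1, ← h2])

/-- the bound for maximal subgroups -/
def PrimB (c : ℕ) : Prop := ∀ (G : Type) [Group G] [Finite G] [Group.IsSolvable G] (M : Subgroup G), IsCoatom M →
  (M.normalCore.index).primeFactors.card ≤ c * Nat.log 2 M.index

private theorem log_add4 (a b : ℕ) (ha : a ≠ 0) (hb : b ≠ 0) :
    Nat.log 2 a + Nat.log 2 b ≤ Nat.log 2 (a * b) := by
  refine Nat.le_log_of_pow_le one_lt_two ?_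
  rw [pow_add]
  exact Nat.mul_le_mul (Nat.pow_log_le_self 2 ha) (Nat.pow_log_le_self 2 hb)

/-- a prime does not divide the index of the core iff all its elements are in the subgroup -/
theorem core_prime {G : Type} [Group G] [Finite G] (H : Subgroup G) {p : ℕ} (hp : p.Prime) :
    p ∈ (H.normalCore.index).primeFactors ↔ ∃ g : G, (∃ k : ℕ, g ^ p ^ k = 1) ∧ g ∉ H := by
  have hF : Fact p.Prime := ⟨hp⟩
  have hi0 : H.normalCore.index ≠ 0 := Subgroup.index_ne_zero_of_finite
  constructor
  · intro h
    by_contra hcon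
    push Not at hcon
    obtain ⟨P⟩ : Nonempty (Sylow p G) := inferInstance
    have h1 : (P : Subgroup G) ≤ H.normalCore := by
      intro x hx b
      obtain ⟨k, hk⟩ := P.2 ⟨x, hx⟩
      have hk' : x ^ p ^ k = 1 := by
        have h2 := congrArg (fun y : (P : Subgroup G) => (y : G)) hk
        simpa using h2
      refine hcon _ ⟨k, ?_⟩
      rw [conj_pow, hk', mul_one, mul_inv_cancel]
    exact P.not_dvd_index ((Nat.dvd_of_mem_primeFactors h).trans (Subgroup.index_dvd_of_le h1))
  · rintro ⟨g, ⟨k, hk⟩, hg⟩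
    rw [Nat.mem_primeFactors]
    refine ⟨hp, ?_, hi0⟩
    by_contra hcon
    apply hg
    apply Subgroup.normalCore_le
    have hcop : Nat.Coprime (p ^ k) H.normalCore.index :=
      Nat.Coprime.pow_left k ((Nat.Prime.coprime_iff_not_dvd hp).2 hcon)
    have h1 : (QuotientGroup.mk' H.normalCore g) ^ (p ^ k) = 1 := by
      rw [← map_pow, hk, map_one]
    have h2 : (QuotientGroup.mk' H.normalCore g) ^ H.normalCore.index = 1 := pow_card_eq_one'
    have h3 : orderOf (QuotientGroup.mk' H.normalCore g) ∣ Nat.gcd (p ^ k) H.normalCore.index :=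
      Nat.dvd_gcd (orderOf_dvd_of_pow_eq_one h1) (orderOf_dvd_of_pow_eq_one h2)
    rw [hcop] at h3
    exact (QuotientGroup.eq_one_iff g).1 (orderOf_eq_one_iff.1 (Nat.dvd_one.1 h3))

/-- the number of the primes of the index of a core, from the case of maximal subgroups -/
theorem tr_om {c : ℕ} (hc : PrimB c) : ∀ (d : ℕ) (G : Type) [Group G] [Finite G] [Group.IsSolvable G]
    (H : Subgroup G), H.index = d → (H.normalCore.index).primeFactors.card ≤ c * Nat.log 2 d := by
  classical
  intro d
  induction d using Nat.strong_induction_on with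
  | _ d ih =>
    intro G _ _ _ H hd
    rcases eq_top_or_exists_le_coatom H with h | ⟨M, hM, hHM⟩
    · have h1 : H.normalCore.index = 1 := by
        rw [h, Subgroup.normalCore_eq_self, Subgroup.index_top]
      rw [h1, Nat.primeFactors_one, Finset.card_empty]
      exact Nat.zero_le _
    · have hM0 : M.index ≠ 0 := Subgroup.index_ne_zero_of_finite
      have hR0 : H.relIndex M ≠ 0 := Subgroup.index_ne_zero_of_finite (H := H.subgroupOf M)
      have hmul := Subgroup.relIndex_mul_index hHM
      have hM1 : M.index ≠ 1 := fun h => hM.1 (Subgroup.index_eq_one.1 h)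
      have hlt : H.relIndex M < d := by
        rw [← hd, ← hmul]
        have h2 : 2 ≤ M.index := by omega
        have h3 : 0 < H.relIndex M := Nat.pos_of_ne_zero hR0
        nlinarith
      have h1 := ih (H.relIndex M) hlt M (H.subgroupOf M) rfl
      have h2 := hc G M hM
      have hsub : (H.normalCore.index).primeFactors ⊆
          (M.normalCore.index).primeFactors ∪ ((H.subgroupOf M).normalCore.index).primeFactors := by
        intro p hp
        have hpp := Nat.prime_of_mem_primeFactors hp
        rw [Finset.mem_union]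
        by_contra hcon
        push Not at hcon
        obtain ⟨g, ⟨k, hk⟩, hg⟩ := (core_prime H hpp).1 hp
        have hgM : g ∈ M := by
          by_contra hgM
          exact hcon.1 ((core_prime M hpp).2 ⟨g, ⟨k, hk⟩, hgM⟩)
        apply hcon.2
        rw [core_prime _ hpp]
        refine ⟨⟨g, hgM⟩, ⟨k, ?_⟩, fun h => hg ?_⟩
        · apply Subtype.ext
          push_cast
          exact hk
        · exact Subgroup.mem_subgroupOf.1 h
      refine (Finset.card_le_card hsub).trans ((Finset.card_union_le _ _).trans ?_)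
      have h3 := log_add4 (H.relIndex M) M.index hR0 hM0
      rw [hmul, hd] at h3
      have h4 : c * Nat.log 2 M.index + c * Nat.log 2 (H.relIndex M) ≤ c * Nat.log 2 d := by
        rw [← Nat.mul_add]
        exact Nat.mul_le_mul_left c (by omega)
      omega

private theorem num4a (L : ℕ) (hL : 4 ≤ L) : (L + 1) * (L + 1) + 2 ≤ 2 ^ (L + 1) := by
  induction L, hL using Nat.le_induction with
  | base => norm_num
  | succ L hL ih =>
    rw [pow_succ]
    nlinarith

private theorem num4 (q : ℕ) (hq : 2 ≤ q) : q ^ (Nat.log 2 q + 1) ≤ 4 ^ (q - 1) := by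
  by_cases h : q < 16
  · interval_cases q <;> decide
  · push Not at h
    obtain ⟨L, hL⟩ : ∃ L, L = Nat.log 2 q := ⟨_, rfl⟩
    have h1 : 4 ≤ L := by
      rw [hL]
      exact Nat.le_log_of_pow_le one_lt_two (by omega)
    have h2 : q < 2 ^ (L + 1) := by
      rw [hL]
      exact Nat.lt_pow_succ_log_self one_lt_two q
    have h3 : 2 ^ L ≤ q := by
      rw [hL]
      exact Nat.pow_log_le_self 2 (by omega)
    have h4 := num4a L h1
    rw [← hL]
    calc q ^ (L + 1) ≤ (2 ^ (L + 1)) ^ (L + 1) := Nat.pow_le_pow_left h2.le _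
      _ = 2 ^ ((L + 1) * (L + 1)) := by rw [← pow_mul]
      _ ≤ 2 ^ (2 * (q - 1)) := Nat.pow_le_pow_right (by norm_num) (by
        rw [pow_succ] at h4
        omega)
      _ = 4 ^ (q - 1) := by rw [pow_mul]; norm_num

/-- the case of a maximal subgroup -/
private theorem prim4 {G : Type} [Group G] [Finite G] [Group.IsSolvable G] {M : Subgroup G} (hM : IsCoatom M) :
    M.normalCore.index ≤ 4 ^ (M.index - 1) := by
  obtain ⟨Q, i1, i2, i3, M', h1, h2, h3, h4⟩ := prim_quot hM
  obtain ⟨r, a, hr, hi, hcard⟩ := prim_card autB h1 h2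
  rw [h3] at hcard
  rw [← h4, ← Subgroup.card_mul_index M', h3]
  have hM1 : M.index ≠ 1 := fun h => hM.1 (Subgroup.index_eq_one.1 h)
  have hM0 : M.index ≠ 0 := Subgroup.index_ne_zero_of_finite
  refine le_trans (Nat.mul_le_mul_right _ hcard) ?_
  rw [← pow_succ]
  exact num4 _ (by omega)

/-- the core of a subgroup, by the cores in a subgroup above it -/
private theorem core_le4 {G : Type} [Group G] [Finite G] {H M : Subgroup G} (hHM : H ≤ M) :
    H.normalCore.index ≤ M.normalCore.index * ((H.subgroupOf M).normalCore.index) ^ M.index := by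
  classical
  obtain ⟨K, hK⟩ : ∃ K, K = M.normalCore := ⟨_, rfl⟩
  have hKn : K.Normal := by rw [hK]; exact Subgroup.normalCore_normal M
  have hKM : K ≤ M := by rw [hK]; exact Subgroup.normalCore_le M
  obtain ⟨L', hL'⟩ : ∃ L', L' = (H.subgroupOf M).normalCore := ⟨_, rfl⟩
  have hLn : L'.Normal := by rw [hL']; exact Subgroup.normalCore_normal _
  obtain ⟨L, hL⟩ : ∃ L, L = L'.map M.subtype := ⟨_, rfl⟩
  have hLM : L.relIndex M = L'.index := by
    rw [hL]
    show ((L'.map M.subtype).comap M.subtype).index = L'.index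
    rw [Subgroup.comap_map_eq_self_of_injective M.subtype_injective]
  have hLH : L ≤ H := by
    rw [hL]
    rintro _ ⟨x, hx, rfl⟩
    have h1 : x ∈ H.subgroupOf M := by
      rw [hL'] at hx
      exact Subgroup.normalCore_le _ hx
    exact Subgroup.mem_subgroupOf.1 h1
  have hLc : ∀ m ∈ M, ∀ x ∈ L, m * x * m⁻¹ ∈ L := by
    intro m hm x hx
    rw [hL] at hx ⊢
    obtain ⟨y, hy, rfl⟩ := hx
    exact ⟨⟨m, hm⟩ * y * ⟨m, hm⟩⁻¹, hLn.conj_mem y hy _, rfl⟩
  have hcore : H.normalCore ≤ K := by
    rw [hK]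
    exact Subgroup.normal_le_normalCore.2 ((Subgroup.normalCore_le H).trans hHM)
  have := Fintype.ofFinite (G ⧸ M)
  obtain ⟨F, hF⟩ : ∃ F : G ⧸ M → Subgroup G, F = fun q => L.map (MulAut.conj q.out).toMonoidHom := ⟨_, rfl⟩
  have hle : (⨅ q, F q) ≤ H.normalCore := by
    intro x hx b
    have h1 : x ∈ F ((b⁻¹ : G) : G ⧸ M) := (Subgroup.mem_iInf.1 hx) _
    rw [hF] at h1
    obtain ⟨l, hl, hlx⟩ := h1
    obtain ⟨m, hm⟩ := QuotientGroup.mk_out_eq_mul M b⁻¹
    have h2 : x = (b⁻¹ * m) * l * (b⁻¹ * m)⁻¹ := by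
      rw [← hm, ← hlx]
      rfl
    have h3 : b * x * b⁻¹ = (m : G) * l * (m : G)⁻¹ := by
      rw [h2]
      group
    rw [h3]
    exact hLH (hLc m m.2 l hl)
  have hFK : ∀ q, (F q).relIndex K ≤ L'.index := by
    intro q
    have h1 : K = K.map (MulAut.conj q.out).toMonoidHom := (Subgroup.Normal.map_conj_eq K q.out).symm
    have h2 : (F q).relIndex K = L.relIndex K := by
      conv_lhs => rw [h1]
      rw [hF]
      exact Subgroup.relIndex_map_map_of_injective L K (MulAut.conj q.out).injective
    rw [h2, ← hLM]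
    exact Subgroup.relIndex_le_of_le_right hKM (Subgroup.index_ne_zero_of_finite (H := L.subgroupOf M))
  have h5 : H.normalCore.relIndex K ≤ L'.index ^ M.index := by
    refine (Subgroup.relIndex_le_of_le_left (L := K) hle
      (Subgroup.index_ne_zero_of_finite (H := (⨅ q, F q).subgroupOf K))).trans ?_
    refine (Subgroup.relIndex_iInf_le F).trans ?_
    refine (Finset.prod_le_pow_card _ _ _ fun q _ => hFK q).trans ?_
    rw [Finset.card_univ, ← Nat.card_eq_fintype_card]
    exact le_rfl
  rw [← Subgroup.relIndex_mul_index hcore, ← hK, ← hL', mul_comm]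
  exact Nat.mul_le_mul_left _ h5

/-- the index of the core of a subgroup of index `d` of a solvable group -/
theorem core4 : ∀ (d : ℕ) (G : Type) [Group G] [Finite G] [Group.IsSolvable G] (H : Subgroup G),
    H.index = d → H.normalCore.index ≤ 4 ^ (d - 1) := by
  intro d
  induction d using Nat.strong_induction_on with
  | _ d ih =>
    intro G _ _ _ H hd
    rcases eq_top_or_exists_le_coatom H with h | ⟨M, hM, hHM⟩
    · have h1 : H.normalCore.index = 1 := by
        rw [h, Subgroup.normalCore_eq_self, Subgroup.index_top]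
      rw [h1]
      exact Nat.one_le_pow _ _ (by norm_num)
    · have hM0 : M.index ≠ 0 := Subgroup.index_ne_zero_of_finite
      have hR0 : H.relIndex M ≠ 0 := Subgroup.index_ne_zero_of_finite (H := H.subgroupOf M)
      have hmul := Subgroup.relIndex_mul_index hHM
      have hM1 : M.index ≠ 1 := fun h => hM.1 (Subgroup.index_eq_one.1 h)
      have hlt : H.relIndex M < d := by
        rw [← hd, ← hmul]
        have h2 : 2 ≤ M.index := by omega
        have h3 : 0 < H.relIndex M := Nat.pos_of_ne_zero hR0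
        nlinarith
      have h1 : (H.subgroupOf M).normalCore.index ≤ 4 ^ (H.relIndex M - 1) :=
        ih (H.relIndex M) hlt M (H.subgroupOf M) rfl
      have h2 := prim4 hM
      refine (core_le4 hHM).trans ?_
      refine (Nat.mul_le_mul h2 (Nat.pow_le_pow_left h1 M.index)).trans ?_
      rw [← pow_mul, ← pow_add]
      refine Nat.pow_le_pow_right (by norm_num) ?_
      rw [← hd, ← hmul]
      obtain ⟨u, hu⟩ : ∃ u, H.relIndex M = u + 1 := ⟨H.relIndex M - 1, by omega⟩
      obtain ⟨v, hv⟩ : ∃ v, M.index = v + 1 := ⟨M.index - 1, by omega⟩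
      rw [hu, hv, Nat.add_sub_cancel, Nat.add_sub_cancel]
      have h5 : (u + 1) * (v + 1) = v + u * (v + 1) + 1 := by ring
      omega

/-- the order of a solvable group of permutations -/
theorem act4 (G : Type) [Group G] [Finite G] [Group.IsSolvable G] (α : Type) [MulAction G α] [Finite α]
    [Nonempty α] : (MulAction.toPermHom G α).ker.index ≤ 4 ^ (Nat.card α - 1) := by
  classical
  have := Fintype.ofFinite (MulAction.orbitRel.Quotient G α)
  have hfo : ∀ ω : MulAction.orbitRel.Quotient G α, Finite (MulAction.orbit G ω.out) := fun ω => inferInstance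
  obtain ⟨F, hF⟩ : ∃ F : MulAction.orbitRel.Quotient G α → Subgroup G,
    F = fun ω => (MulAction.stabilizer G ω.out).normalCore := ⟨_, rfl⟩
  have hle : (⨅ ω, F ω) ≤ (MulAction.toPermHom G α).ker := by
    intro x hx
    rw [MonoidHom.mem_ker]
    refine Equiv.ext fun y => ?_
    obtain ⟨ω, hω⟩ : ∃ ω : MulAction.orbitRel.Quotient G α, ω = Quotient.mk'' y := ⟨_, rfl⟩
    have h1 : x ∈ F ω := (Subgroup.mem_iInf.1 hx) ω
    rw [hF] at h1
    have h2 : ω.out ∈ MulAction.orbit G y := by
      have h3 : (Quotient.mk'' ω.out : MulAction.orbitRel.Quotient G α) = Quotient.mk'' y := by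
        rw [← hω]
        exact Quotient.out_eq' ω
      exact MulAction.orbitRel_apply.1 (Quotient.exact' h3)
    obtain ⟨g, hg⟩ := h2
    have hg : g • y = ω.out := hg
    have h3 : g * x * g⁻¹ ∈ MulAction.stabilizer G ω.out := h1 g
    have h4 := MulAction.mem_stabilizer_iff.1 h3
    rw [← hg, mul_smul, inv_smul_smul, mul_smul, smul_left_cancel_iff] at h4
    exact h4
  have h1 : (MulAction.toPermHom G α).ker.index ≤ (⨅ ω, F ω).index :=
    Nat.le_of_dvd (Nat.pos_of_ne_zero Subgroup.index_ne_zero_of_finite) (Subgroup.index_dvd_of_le hle)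
  refine h1.trans ((Subgroup.index_iInf_le F).trans ?_)
  have h2 : ∀ ω, (F ω).index ≤ 4 ^ (Nat.card (MulAction.orbit G ω.out) - 1) := by
    intro ω
    have h3 := core4 (MulAction.stabilizer G ω.out).index G (MulAction.stabilizer G ω.out) rfl
    rw [MulAction.index_stabilizer] at h3
    rw [hF]
    exact h3
  refine (Finset.prod_le_prod' fun ω _ => h2 ω).trans ?_
  rw [Finset.prod_pow_eq_pow_sum]
  refine Nat.pow_le_pow_right (by norm_num) ?_
  have hsum : Nat.card α = ∑ ω : MulAction.orbitRel.Quotient G α, Nat.card (MulAction.orbit G ω.out) := by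
    rw [← Nat.card_sigma]
    exact Nat.card_congr (MulAction.selfEquivSigmaOrbits G α)
  obtain ⟨y⟩ : Nonempty α := inferInstance
  obtain ⟨ω₀, hω₀⟩ : ∃ ω : MulAction.orbitRel.Quotient G α, ω = Quotient.mk'' y := ⟨_, rfl⟩
  have hpos : ∀ ω : MulAction.orbitRel.Quotient G α, 1 ≤ Nat.card (MulAction.orbit G ω.out) := by
    intro ω
    have : Nonempty (MulAction.orbit G ω.out) := (MulAction.nonempty_orbit (M := G) ω.out).to_subtype
    exact Nat.card_pos
  rw [hsum, ← Finset.add_sum_erase _ _ (Finset.mem_univ ω₀), ← Finset.add_sum_erase _ _ (Finset.mem_univ ω₀)]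
  have h5 : ∑ ω ∈ Finset.univ.erase ω₀, (Nat.card (MulAction.orbit G ω.out) - 1) ≤
      ∑ ω ∈ Finset.univ.erase ω₀, Nat.card (MulAction.orbit G ω.out) :=
    Finset.sum_le_sum fun ω _ => Nat.sub_le _ _
  have h6 := hpos ω₀
  omega

/-- the order of a solvable group of permutations -/
theorem perm4 {α : Type} [Finite α] [Nonempty α] (X : Subgroup (Equiv.Perm α)) [Group.IsSolvable X] :
    Nat.card X ≤ 4 ^ (Nat.card α - 1) := by
  have h1 := act4 X α
  have h2 : (MulAction.toPermHom X α).ker = ⊥ := by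
    rw [eq_bot_iff]
    intro x hx
    rw [MonoidHom.mem_ker] at hx
    rw [Subgroup.mem_bot]
    apply Subtype.ext
    exact hx
  rwa [h2, Subgroup.index_bot] at h1

end Pool.Agent.H81.SV
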