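import Mathlib

/-!
# THEOREM SOLV (MP_576eff_lc), chapter (S): maximal subgroups of solvable groups

`nor_ab`: a nontrivial solvable group has an abelian normal subgroup of prime power order. `prim_card`: a maximal subgroup `M` without normal
subgroups of the group (not trivial) has prime power index `q`, and at most `|Aut V|` elements, for a group `V` of order `q`.
`prim_omega`: the order of such a group has at most `L (L + 1)` prime divisors, `L = log_2 q`.
-/

set_option autoImplicit false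

open scoped commutatorElement

namespace Pool.Agent.H81.SV

/-- the bound for the automorphism group -/
def AutB : Prop := ∀ (H : Type) [Group H] [Finite H], Nat.card (MulAut H) ≤ Nat.card H ^ Nat.log 2 (Nat.card H)

theorem omega_le (N : ℕ) : N.primeFactors.card ≤ Nat.log 2 N := by
  by_cases hN : N = 0
  · simp [hN]
  have h1 : 2 ^ N.primeFactors.card ≤ ∏ p ∈ N.primeFactors, p := by
    rw [← Finset.prod_const]
    exact Finset.prod_le_prod' fun p hp => (Nat.prime_of_mem_primeFactors hp).two_le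
  have h2 : 2 ^ N.primeFactors.card ≤ N :=
    h1.trans (Nat.le_of_dvd (Nat.pos_of_ne_zero hN) (Nat.prod_primeFactors_dvd N))
  exact Nat.le_log_of_pow_le one_lt_two h2

theorem nor_ab {Q : Type} [Group Q] [Finite Q] [Group.IsSolvable Q] [Nontrivial Q] :
    ∃ A : Subgroup Q, A.Normal ∧ A ≠ ⊥ ∧ (∀ x ∈ A, ∀ y ∈ A, x * y = y * x) ∧
      ∃ r a, r.Prime ∧ Nat.card A = r ^ a := by
  classical
  obtain ⟨n, hn⟩ := (Group.isSolvable_def Q).1 inferInstance
  obtain ⟨k, hk, hk2⟩ : ∃ k, derivedSeries Q (k + 1) = ⊥ ∧ derivedSeries Q k ≠ ⊥ := by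
    have h0 : derivedSeries Q 0 ≠ ⊥ := by
      rw [derivedSeries_zero]
      exact top_ne_bot
    obtain ⟨j, hj⟩ : ∃ j, j = Nat.find (⟨n, hn⟩ : ∃ n, derivedSeries Q n = ⊥) := ⟨_, rfl⟩
    have h1 := Nat.find_spec (⟨n, hn⟩ : ∃ n, derivedSeries Q n = ⊥)
    rw [← hj] at h1
    cases j with
    | zero => exact absurd h1 h0
    | succ k =>
      refine ⟨k, h1, fun h => ?_⟩
      have h2 := Nat.find_min' (⟨n, hn⟩ : ∃ n, derivedSeries Q n = ⊥) h
      omega
  obtain ⟨D, hD⟩ : ∃ D, D = derivedSeries Q k := ⟨_, rfl⟩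
  have hDn : D.Normal := by rw [hD]; exact derivedSeries_normal Q k
  have hcomm : ∀ x ∈ D, ∀ y ∈ D, x * y = y * x := by
    intro x hx y hy
    rw [hD] at hx hy
    have h1 : ⁅x, y⁆ ∈ derivedSeries Q (k + 1) := by
      rw [derivedSeries_succ]
      exact Subgroup.commutator_mem_commutator hx hy
    rw [hk, Subgroup.mem_bot] at h1
    exact commutatorElement_eq_one_iff_mul_comm.1 h1
  rw [← hD] at hk2
  have hc1 : Nat.card D ≠ 1 := by
    intro h
    exact hk2 (Subgroup.eq_bot_of_card_eq D h)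
  obtain ⟨r, hr, hrd⟩ := Nat.exists_prime_and_dvd hc1
  have hrf : Fact r.Prime := ⟨hr⟩
  obtain ⟨z, hz⟩ := exists_prime_orderOf_dvd_card' r hrd
  obtain ⟨A, hA⟩ : ∃ A : Subgroup Q, ∀ x, x ∈ A ↔ x ∈ D ∧ x ^ r = 1 := by
    refine ⟨{ carrier := {x | x ∈ D ∧ x ^ r = 1}
              mul_mem' := ?_
              one_mem' := ⟨D.one_mem, one_pow r⟩
              inv_mem' := ?_ }, fun x => Iff.rfl⟩
    · rintro x y ⟨hx, hx'⟩ ⟨hy, hy'⟩
      refine ⟨D.mul_mem hx hy, ?_⟩
      have h1 : Commute x y := hcomm x hx y hy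
      rw [h1.mul_pow, hx', hy', one_mul]
    · rintro x ⟨hx, hx'⟩
      exact ⟨D.inv_mem hx, by rw [inv_pow, hx', inv_one]⟩
  refine ⟨A, ⟨fun x hx g => ?_⟩, ?_, fun x hx y hy => hcomm x ((hA x).1 hx).1 y ((hA y).1 hy).1, r, ?_⟩
  · rw [hA] at hx ⊢
    refine ⟨hDn.conj_mem x hx.1 g, ?_⟩
    rw [conj_pow, hx.2]
    group
  · intro h
    have h1 : (z : Q) ∈ A := by
      rw [hA]
      refine ⟨z.2, ?_⟩
      have h2 : z ^ r = 1 := by rw [← hz]; exact pow_orderOf_eq_one z
      have h3 := congrArg (fun y : D => (y : Q)) h2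
      simpa using h3
    rw [h, Subgroup.mem_bot] at h1
    have h2 : z = 1 := Subtype.ext h1
    rw [h2, orderOf_one] at hz
    exact hr.one_lt.ne hz
  · have h1 : IsPGroup r A := by
      intro x
      refine ⟨1, ?_⟩
      rw [pow_one]
      apply Subtype.ext
      push_cast
      exact ((hA _).1 x.2).2
    obtain ⟨a, ha⟩ := IsPGroup.iff_card.1 h1
    exact ⟨a, hr, ha⟩

variable {G : Type} [Group G] [Finite G]

omit [Finite G] in
/-- a subgroup of a maximal subgroup which is normalised by it and by another subgroup not inside it -/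
private theorem prim_bot {M X V : Subgroup G} (hc : M.normalCore = ⊥) (htop : V ⊔ M = ⊤) (hX : X ≤ M)
    (h1 : ∀ m ∈ M, ∀ x ∈ X, m * x * m⁻¹ ∈ X) (h2 : ∀ v ∈ V, ∀ x ∈ X, v * x * v⁻¹ ∈ X) : X = ⊥ := by
  have key : ∀ W : Subgroup G, (∀ w ∈ W, ∀ x ∈ X, w * x * w⁻¹ ∈ X) → W ≤ Subgroup.normalizer (X : Set G) := by
    intro W hW w hw
    rw [Subgroup.mem_normalizer_iff]
    intro x
    refine ⟨fun hx => hW w hw x hx, fun hx => ?_⟩
    have h3 := hW w⁻¹ (W.inv_mem hw) _ hx
    have h4 : w⁻¹ * (w * x * w⁻¹) * w⁻¹⁻¹ = x := by group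
    rwa [h4] at h3
  have hN : X.Normal := by
    rw [← Subgroup.normalizer_eq_top_iff, eq_top_iff, ← htop]
    exact sup_le (key V h2) (key M h1)
  have h3 : X ≤ M.normalCore := Subgroup.normal_le_normalCore.2 hX
  rw [hc] at h3
  exact le_bot_iff.1 h3

theorem prim_card [Group.IsSolvable G] (haut : AutB) {M : Subgroup G} (hM : IsCoatom M)
    (hc : M.normalCore = ⊥) : ∃ r a, r.Prime ∧ M.index = r ^ a ∧
      Nat.card M ≤ M.index ^ Nat.log 2 M.index := by
  have hnt : Nontrivial G := by
    rw [← not_subsingleton_iff_nontrivial]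
    intro h
    exact hM.1 (Subsingleton.elim M ⊤)
  obtain ⟨V, hVn, hV1, hVc, r, a, hr, hVr⟩ := nor_ab (Q := G)
  have hVM : ¬ V ≤ M := by
    intro h
    have h1 : V ≤ M.normalCore := Subgroup.normal_le_normalCore.2 h
    rw [hc] at h1
    exact hV1 (le_bot_iff.1 h1)
  have htop : V ⊔ M = ⊤ := by
    refine hM.2 _ (lt_of_le_of_ne le_sup_right fun h => hVM ?_)
    rw [h]
    exact le_sup_left
  have hinf : V ⊓ M = ⊥ := by
    refine prim_bot hc htop inf_le_right (fun m hm x hx => ?_) (fun v hv x hx => ?_)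
    · exact ⟨hVn.conj_mem x hx.1 m, M.mul_mem (M.mul_mem hm hx.2) (M.inv_mem hm)⟩
    · rw [hVc v hv x hx.1, mul_inv_cancel_right]
      exact hx
  have hcomp : Subgroup.IsComplement' V M := by
    refine Subgroup.isComplement'_of_disjoint_and_mul_eq_univ (disjoint_iff.2 hinf) ?_
    rw [← Subgroup.normal_mul, htop, Subgroup.coe_top]
  have hidx : M.index = Nat.card V := hcomp.index_eq_card
  have hker : M ⊓ Subgroup.centralizer (V : Set G) = ⊥ := by
    have hcn : (Subgroup.centralizer (V : Set G)).Normal := inferInstance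
    refine prim_bot hc htop inf_le_left (fun m hm x hx => ?_) (fun v hv x hx => ?_)
    · exact ⟨M.mul_mem (M.mul_mem hm hx.1) (M.inv_mem hm), hcn.conj_mem x hx.2 m⟩
    · have h1 : v * x = x * v := (Subgroup.mem_centralizer_iff.1 hx.2) v hv
      rw [h1, mul_inv_cancel_right]
      exact hx
  refine ⟨r, a, hr, by rw [hidx, hVr], ?_⟩
  rw [hidx]
  refine le_trans ?_ (haut V)
  have hfinA : Finite (MulAut V) := inferInstance
  refine Nat.card_le_card_of_injective
    (fun m : M => (MulAut.conjNormal (m : G) : MulAut V)) ?_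
  intro m m' h
  have h1 : ∀ v : V, (m : G) * v * (m : G)⁻¹ = (m' : G) * v * (m' : G)⁻¹ := by
    intro v
    have h2 := congrArg (fun f : MulAut V => ((f v : V) : G)) h
    simpa using h2
  have h3 : (m' : G)⁻¹ * m ∈ M ⊓ Subgroup.centralizer (V : Set G) := by
    refine Subgroup.mem_inf.2 ⟨M.mul_mem (M.inv_mem m'.2) m.2, ?_⟩
    rw [Subgroup.mem_centralizer_iff]
    intro v hv
    have h4 := h1 ⟨v, hv⟩
    simp only at h4
    have h5 : (m : G) * v = (m' : G) * v * (m' : G)⁻¹ * m := by
      rw [← h4]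
      group
    rw [mul_assoc (m' : G)⁻¹, h5]
    group
  rw [hker, Subgroup.mem_bot] at h3
  exact Subtype.ext (inv_mul_eq_one.1 h3).symm

private theorem prim_om [Group.IsSolvable G] (haut : AutB) {M : Subgroup G} (hM : IsCoatom M)
    (hc : M.normalCore = ⊥) :
    (Nat.card G).primeFactors.card ≤ Nat.log 2 M.index * (Nat.log 2 M.index + 1) := by
  classical
  obtain ⟨r, a, hr, hi, hcard⟩ := prim_card haut hM hc
  obtain ⟨q, hq⟩ : ∃ q, q = M.index := ⟨_, rfl⟩
  rw [← hq] at hi hcard ⊢
  have hG : Nat.card G = Nat.card M * q := by rw [hq, Subgroup.card_mul_index]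
  have hq1 : q ≠ 1 := by
    rw [hq]
    intro h
    exact hM.1 (Subgroup.index_eq_one.1 h)
  have hq0 : q ≠ 0 := by
    rw [hq]
    exact Subgroup.index_ne_zero_of_finite
  have hM0 : Nat.card M ≠ 0 := Nat.card_pos.ne'
  have hL : 1 ≤ Nat.log 2 q := Nat.log_pos one_lt_two (by omega)
  have ha : a ≠ 0 := by
    rintro rfl
    rw [pow_zero] at hi
    exact hq1 hi
  have h1 : q.primeFactors.card ≤ 1 := by
    rw [hi, Nat.primeFactors_prime_pow ha hr, Finset.card_singleton]
  have h2 : (Nat.card M).primeFactors.card < Nat.log 2 q * (Nat.log 2 q + 1) := by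
    refine lt_of_le_of_lt (omega_le _) ?_
    refine Nat.log_lt_of_lt_pow hM0 ?_
    refine lt_of_le_of_lt hcard ?_
    rw [mul_comm, pow_mul]
    exact Nat.pow_lt_pow_left (Nat.lt_pow_succ_log_self one_lt_two q) (by omega)
  rw [hG, Nat.primeFactors_mul hM0 hq0]
  refine (Finset.card_union_le _ _).trans ?_
  omega

/-- the prime divisors of the index of the core of a maximal subgroup -/
theorem prim_omega [Group.IsSolvable G] (haut : AutB) {M : Subgroup G} (hM : IsCoatom M) :
    (M.normalCore.index).primeFactors.card ≤ Nat.log 2 M.index * (Nat.log 2 M.index + 1) := by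
  obtain ⟨K, hK⟩ : ∃ K, K = M.normalCore := ⟨_, rfl⟩
  have hKn : K.Normal := by rw [hK]; exact Subgroup.normalCore_normal M
  have hKM : K ≤ M := by rw [hK]; exact Subgroup.normalCore_le M
  obtain ⟨f, hf⟩ : ∃ f, f = QuotientGroup.mk' K := ⟨_, rfl⟩
  have hfs : Function.Surjective f := by rw [hf]; exact QuotientGroup.mk'_surjective K
  have hfk : f.ker = K := by rw [hf]; exact QuotientGroup.ker_mk' K
  have hcm : (M.map f).comap f = M := by
    rw [Subgroup.comap_map_eq, hfk]
    exact sup_eq_left.2 hKM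
  have hco : IsCoatom (M.map f) := by
    constructor
    · intro h
      apply hM.1
      rw [← hcm, h, Subgroup.comap_top]
    · intro X hX
      have h1 : M < X.comap f := by
        refine lt_of_le_of_ne ?_ ?_
        · rw [← hcm]
          exact Subgroup.comap_mono hX.le
        · intro h
          apply hX.ne
          rw [h, Subgroup.map_comap_eq_self_of_surjective hfs]
      have h2 := hM.2 _ h1
      rw [← Subgroup.map_comap_eq_self_of_surjective hfs X, h2, ← MonoidHom.range_eq_map,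
        MonoidHom.range_eq_top.2 hfs]
  have hcore : (M.map f).normalCore = ⊥ := by
    have h1 : ((M.map f).normalCore).comap f ≤ M :=
      (Subgroup.comap_mono (Subgroup.normalCore_le (M.map f))).trans hcm.le
    have h2 : (((M.map f).normalCore).comap f).Normal :=
      (Subgroup.normalCore_normal (M.map f)).comap f
    have h3 : ((M.map f).normalCore).comap f ≤ K :=
      (Subgroup.normal_le_normalCore.2 h1).trans hK.ge
    rw [← Subgroup.map_comap_eq_self_of_surjective hfs (M.map f).normalCore, Subgroup.map_eq_bot_iff, hfk]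
    exact h3
  have hidx : (M.map f).index = M.index := by
    rw [← Subgroup.index_comap_of_surjective _ hfs, hcm]
  have h1 := prim_om haut hco hcore
  rw [hidx] at h1
  rw [← hK]
  exact h1

end Pool.Agent.H81.SV
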