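import Pool.Agent.H81.SV.P4

/-!
# THEOREM SOLV (MP_576eff_lc), chapter (S): the product of the primes of a transitive constituent

`RadB N f`: the bound for maximal subgroups of index at most `N`: the index of the core of `M` is at most `M.index ^ f`. `radB_log`: it holds with
`f = 1 + log_2 N`. `rad_le`: the product of the primes which divide the index of the core of `H` is at most `H.index ^ f`.
`stab_exp`: if no `p ^ (h + 1)` divides the order of the solvable group `Γ` of permutations of `n` points then the transitive constituents have order at most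
`n ^ (f * h)`.
-/

set_option autoImplicit false

namespace Pool.Agent.H81.SV

/-- the bound for maximal subgroups -/
def RadB (N f : ℕ) : Prop := ∀ (G : Type) [Group G] [Finite G] [Group.IsSolvable G] (M : Subgroup G), IsCoatom M →
  M.index ≤ N → M.normalCore.index ≤ M.index ^ f

theorem radB_log (N : ℕ) : RadB N (1 + Nat.log 2 N) := by
  intro G _ _ _ M hM hN
  obtain ⟨Q, i1, i2, i3, M', h1, h2, h3, h4⟩ := prim_quot hM
  obtain ⟨r, a, hr, hi, hcard⟩ := prim_card autB h1 h2
  rw [h3] at hcard
  have hM0 : M.index ≠ 0 := Subgroup.index_ne_zero_of_finite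
  rw [← h4, ← Subgroup.card_mul_index M', h3]
  refine le_trans (Nat.mul_le_mul_right _ hcard) ?_
  rw [← pow_succ]
  refine Nat.pow_le_pow_right (Nat.pos_of_ne_zero hM0) ?_
  have := Nat.log_mono_right (b := 2) hN
  omega

/-- the product of the primes of the index of a core -/
theorem rad_le {N f : ℕ} (hf : RadB N f) : ∀ (d : ℕ), d ≤ N → ∀ (G : Type) [Group G] [Finite G]
    [Group.IsSolvable G] (H : Subgroup G), H.index = d →
    ∏ p ∈ (H.normalCore.index).primeFactors, p ≤ d ^ f := by
  classical
  intro d
  induction d using Nat.strong_induction_on with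
  | _ d ih =>
    intro hdN G _ _ _ H hd
    have hd0 : d ≠ 0 := by
      rw [← hd]
      exact Subgroup.index_ne_zero_of_finite
    rcases eq_top_or_exists_le_coatom H with h | ⟨M, hM, hHM⟩
    · have h1 : H.normalCore.index = 1 := by
        rw [h, Subgroup.normalCore_eq_self, Subgroup.index_top]
      rw [h1, Nat.primeFactors_one, Finset.prod_empty]
      exact Nat.one_le_pow _ _ (Nat.pos_of_ne_zero hd0)
    · have hM0 : M.index ≠ 0 := Subgroup.index_ne_zero_of_finite
      have hR0 : H.relIndex M ≠ 0 := Subgroup.index_ne_zero_of_finite (H := H.subgroupOf M)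
      have hmul := Subgroup.relIndex_mul_index hHM
      have hM1 : M.index ≠ 1 := fun h => hM.1 (Subgroup.index_eq_one.1 h)
      have hlt : H.relIndex M < d := by
        rw [← hd, ← hmul]
        have h2 : 2 ≤ M.index := by omega
        have h3 : 0 < H.relIndex M := Nat.pos_of_ne_zero hR0
        nlinarith
      have hMN : M.index ≤ N := by
        refine le_trans ?_ hdN
        rw [← hd, ← hmul]
        exact Nat.le_mul_of_pos_left _ (Nat.pos_of_ne_zero hR0)
      have h1 := ih (H.relIndex M) hlt (hlt.le.trans hdN) M (H.subgroupOf M) rfl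
      have h2 : ∏ p ∈ (M.normalCore.index).primeFactors, p ≤ M.index ^ f :=
        (Nat.le_of_dvd (Nat.pos_of_ne_zero Subgroup.index_ne_zero_of_finite)
          (Nat.prod_primeFactors_dvd _)).trans (hf G M hM hMN)
      have hsub : (H.normalCore.index).primeFactors ⊆
          (M.normalCore.index).primeFactors ∪ ((H.subgroupOf M).normalCore.index).primeFactors := by
        intro p hp
        have hpp := Nat.prime_of_mem_primeFactors hp
        rw [Finset.mem_union]
        by_contra hcon
        push Not at hcon
        obtain ⟨g, ⟨k, hk⟩, hg⟩ := (core_prime H hpp).1 hp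
        have hgM : g ∈ M := by
          by_contra hgM
          exact hcon.1 ((core_prime M hpp).2 ⟨g, ⟨k, hk⟩, hgM⟩)
        apply hcon.2
        rw [core_prime _ hpp]
        refine ⟨⟨g, hgM⟩, ⟨k, ?_⟩, fun h => hg ?_⟩
        · apply Subtype.ext
          push_cast
          exact hk
        · exact Subgroup.mem_subgroupOf.1 h
      obtain ⟨A, hA⟩ : ∃ A, A = (M.normalCore.index).primeFactors := ⟨_, rfl⟩
      obtain ⟨B, hB⟩ : ∃ B, B = ((H.subgroupOf M).normalCore.index).primeFactors := ⟨_, rfl⟩
      rw [← hA, ← hB] at hsub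
      rw [← hA] at h2
      rw [← hB] at h1
      have hA1 : ∀ p ∈ A ∪ B, 1 ≤ p := by
        intro p hp
        rcases Finset.mem_union.1 hp with hp | hp
        · rw [hA] at hp
          exact (Nat.prime_of_mem_primeFactors hp).pos
        · rw [hB] at hp
          exact (Nat.prime_of_mem_primeFactors hp).pos
      have h3 : ∏ p ∈ (H.normalCore.index).primeFactors, p ≤ ∏ p ∈ A ∪ B, p :=
        Finset.prod_le_prod_of_subset_of_one_le' hsub fun p hp _ => hA1 p hp
      have h4 : ∏ p ∈ A ∪ B, p ≤ (∏ p ∈ A, p) * ∏ p ∈ B, p := by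
        rw [← Finset.prod_union_inter]
        refine Nat.le_mul_of_pos_right _ (Finset.prod_pos fun p hp => ?_)
        exact hA1 p (Finset.mem_union_left _ (Finset.mem_inter.1 hp).1)
      refine h3.trans (h4.trans ((Nat.mul_le_mul h2 h1).trans ?_))
      rw [← mul_pow, mul_comm M.index, hmul, hd]

/-- the index of a core in a solvable group without large powers of primes -/
theorem core_exp {G : Type} [Group G] [Finite G] [Group.IsSolvable G] (H : Subgroup G) {N f h : ℕ}
    (hf : RadB N f) (hN : H.index ≤ N) (hh : ∀ p : ℕ, p.Prime → ¬ p ^ (h + 1) ∣ Nat.card G) :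
    H.normalCore.index ≤ N ^ (f * h) := by
  obtain ⟨i, hi⟩ : ∃ i, i = H.normalCore.index := ⟨_, rfl⟩
  have hi0 : i ≠ 0 := by
    rw [hi]
    exact Subgroup.index_ne_zero_of_finite
  have hid : i ∣ Nat.card G := by
    rw [hi]
    exact Subgroup.index_dvd_card _
  have h1 := rad_le hf H.index hN G H rfl
  rw [← hi] at h1 ⊢
  have h2 : ∀ p ∈ i.primeFactors, i.factorization p ≤ h := by
    intro p hp
    by_contra hc
    push Not at hc
    exact hh p (Nat.prime_of_mem_primeFactors hp) ((pow_dvd_pow p hc).trans ((Nat.ordProj_dvd i p).trans hid))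
  have h4 : i ≤ (∏ p ∈ i.primeFactors, p) ^ h := by
    conv_lhs => rw [← Nat.prod_factorization_pow_eq_self hi0]
    rw [Finsupp.prod, Nat.support_factorization, ← Finset.prod_pow]
    exact Finset.prod_le_prod' fun p hp =>
      Nat.pow_le_pow_right (Nat.prime_of_mem_primeFactors hp).pos (h2 p hp)
  refine h4.trans ?_
  rw [pow_mul]
  exact Nat.pow_le_pow_left (h1.trans (Nat.pow_le_pow_left hN f)) h

/-- transitive constituents of solvable groups of permutations -/
theorem stab_exp {n f h : ℕ} {Γ : Subgroup (Equiv.Perm (Fin n))} (hf : RadB n f) (hΓ : Group.IsSolvable Γ)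
    (hh : ∀ p : ℕ, p.Prime → ¬ p ^ (h + 1) ∣ Nat.card Γ) (x : Fin n) :
    (MulAction.stabilizer Γ x).normalCore.index ≤ n ^ (f * h) := by
  refine core_exp (MulAction.stabilizer Γ x) hf ?_ hh
  rw [MulAction.index_stabilizer]
  have h2 : (MulAction.orbit Γ x).ncard ≤ (Set.univ : Set (Fin n)).ncard :=
    Set.ncard_le_ncard (Set.subset_univ _) (Set.toFinite _)
  rwa [Set.ncard_univ, Nat.card_eq_fintype_card, Fintype.card_fin] at h2

end Pool.Agent.H81.SV
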