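import Pool.Agent.H79.SL.IrI
import Pool.Agent.H81.SV.Rad

/-!
# THEOREM SOLV (MP_576eff_lc), COROLLARY A of THEOREM I: the bound for maximal subgroups with the exponent `8`

`prim7`: in a finite solvable group, a maximal subgroup `M` without nontrivial normal subgroups of the group has `4 |M| ≤ M.index ^ 7`.
`radB8`: the index of the core of a maximal subgroup `M` is at most `M.index ^ 8`.
-/

set_option autoImplicit false

namespace Pool.Agent.H81.SV

section conj

variable {G : Type} [Group G] (V : Subgroup G) (hVn : V.Normal) (hVc : ∀ x ∈ V, ∀ y ∈ V, x * y = y * x)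

/-- a commutative subgroup as a commutative group -/
@[reducible] private def cgV : CommGroup V :=
  { (inferInstance : Group V) with mul_comm := fun x y => Subtype.ext (hVc x x.2 y y.2) }

end conj

theorem prim7 {G : Type} [Group G] [Finite G] [Group.IsSolvable G] {M : Subgroup G} (hM : IsCoatom M)
    (hc : M.normalCore = ⊥) : 4 * Nat.card M ≤ M.index ^ 7 := by
  obtain ⟨V, hVn, hV1, hVc, hinf, htop, hidx, -, hker, hirr⟩ := prim_data hM hc
  let i1 : CommGroup V := cgV V hVc
  let i2 : AddCommGroup (Additive V) := Additive.addCommGroup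
  let i3 : DistribMulAction M (Additive V) :=
    { smul := fun m v => Additive.ofMul ⟨m.1 * (v.toMul : G) * m.1⁻¹, hVn.conj_mem _ v.toMul.2 m.1⟩
      one_smul := fun v => by
        apply Additive.toMul.injective
        apply Subtype.ext
        change (1 : G) * (v.toMul : G) * (1 : G)⁻¹ = v.toMul
        rw [inv_one, mul_one, one_mul]
      mul_smul := fun m n v => by
        apply Additive.toMul.injective
        apply Subtype.ext
        change (m.1 * n.1) * (v.toMul : G) * (m.1 * n.1)⁻¹ = m.1 * (n.1 * (v.toMul : G) * n.1⁻¹) * m.1⁻¹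
        rw [mul_inv_rev]
        simp only [mul_assoc]
      smul_zero := fun m => by
        apply Additive.toMul.injective
        apply Subtype.ext
        change m.1 * (1 : G) * m.1⁻¹ = 1
        rw [mul_one, mul_inv_cancel]
      smul_add := fun m v w => by
        apply Additive.toMul.injective
        apply Subtype.ext
        change m.1 * ((v.toMul : G) * (w.toMul : G)) * m.1⁻¹ =
          (m.1 * (v.toMul : G) * m.1⁻¹) * (m.1 * (w.toMul : G) * m.1⁻¹)
        simp only [mul_assoc, inv_mul_cancel_left] }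
  have hnt : Nontrivial (Additive V) := by
    have h1 : Nontrivial V := (Subgroup.nontrivial_iff_ne_bot V).2 hV1
    exact h1
  have hfin : Finite (Additive V) := (inferInstance : Finite V)
  have h1 := Pool.Agent.H79.SL.thmI M (Additive V) (fun U hU => by
    obtain ⟨U', hU'⟩ : ∃ U' : Subgroup G, ∀ x, x ∈ U' ↔ ∃ hx : x ∈ V, Additive.ofMul (⟨x, hx⟩ : V) ∈ U := by
      refine ⟨{ carrier := {x | ∃ hx : x ∈ V, Additive.ofMul (⟨x, hx⟩ : V) ∈ U}
                mul_mem' := ?_
                one_mem' := ⟨V.one_mem, U.zero_mem⟩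
                inv_mem' := ?_ }, fun x => Iff.rfl⟩
      · rintro x y ⟨hx, hx'⟩ ⟨hy, hy'⟩
        exact ⟨V.mul_mem hx hy, U.add_mem hx' hy'⟩
      · rintro x ⟨hx, hx'⟩
        exact ⟨V.inv_mem hx, U.neg_mem hx'⟩
    have h2 : U' ≤ V := fun x hx => ((hU' x).1 hx).1
    have h3 : ∀ m ∈ M, ∀ u ∈ U', m * u * m⁻¹ ∈ U' := by
      intro m hm u hu
      obtain ⟨h4, h5⟩ := (hU' u).1 hu
      rw [hU']
      exact ⟨hVn.conj_mem u h4 m, hU ⟨m, hm⟩ _ h5⟩
    rcases hirr U' h2 h3 with h4 | h4
    · left
      rw [eq_bot_iff]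
      intro u hu
      rw [AddSubgroup.mem_bot]
      have h5 : (u.toMul : G) ∈ U' := (hU' _).2 ⟨u.toMul.2, hu⟩
      rw [h4, Subgroup.mem_bot] at h5
      apply Additive.toMul.injective
      apply Subtype.ext
      exact h5
    · right
      rw [eq_top_iff]
      intro u _
      have h5 : (u.toMul : G) ∈ U' := by
        rw [h4]
        exact u.toMul.2
      exact ((hU' _).1 h5).2)
  have h2 : (MulAction.toPermHom M (Additive V)).ker = ⊥ := by
    rw [eq_bot_iff]
    intro m hm
    rw [MonoidHom.mem_ker] at hm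
    rw [Subgroup.mem_bot]
    have h3 : m.1 ∈ M ⊓ Subgroup.centralizer (V : Set G) := by
      refine ⟨m.2, Subgroup.mem_centralizer_iff.2 fun v hv => ?_⟩
      have h4 := congrArg (fun w : Additive V => (w.toMul : G)) (Equiv.congr_fun hm (Additive.ofMul (⟨v, hv⟩ : V)))
      have h5 : m.1 * v * m.1⁻¹ = v := h4
      rw [mul_inv_eq_iff_eq_mul] at h5
      exact h5.symm
    rw [hker, Subgroup.mem_bot] at h3
    exact Subtype.ext h3
  rw [h2, Subgroup.index_bot] at h1
  rw [hidx]
  exact h1

theorem radB8 (N : ℕ) : RadB N 8 := by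
  intro G _ _ _ M hM hN
  obtain ⟨Q, i1, i2, i3, M', h1, h2, h3, h4⟩ := prim_quot hM
  have h5 := prim7 h1 h2
  rw [h3] at h5
  rw [← h4, ← Subgroup.card_mul_index M', h3, pow_succ]
  exact Nat.mul_le_mul_right _ (by omega)

end Pool.Agent.H81.SV
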