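import Pool.Agent.H79.SL.Aut
import Pool.Agent.H81.SV.Prim

/-!
# THEOREM SOLV (MP_576eff_lc), chapter (S): transitive constituents of solvable groups of permutations

`tr_omega`: `H` a subgroup of a finite solvable group, `L = log_2 [G : H]`: the index of the core of `H` has at most `L (L + 1)` prime divisors.
Proof: a chain of subgroups from `H` to `G`, each one maximal in the next: a prime which does not divide the indices of the cores for the steps of the
chain has all its elements (of order a power of the prime) in `H`.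
`core_le`: the index of the core is at most `S ^ (L (L + 1))`, if `p`-subgroups have at most `S` elements. `tr_index`: point stabilizers.
-/

set_option autoImplicit false

namespace Pool.Agent.H81.SV

theorem autB : AutB := fun _ _ _ => Pool.Agent.H79.SL.card_aut

private theorem log_add (a b : ℕ) (ha : a ≠ 0) (hb : b ≠ 0) :
    Nat.log 2 a + Nat.log 2 b ≤ Nat.log 2 (a * b) := by
  refine Nat.le_log_of_pow_le one_lt_two ?_
  rw [pow_add]
  exact Nat.mul_le_mul (Nat.pow_log_le_self 2 ha) (Nat.pow_log_le_self 2 hb)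

/-- a prime does not divide the index of the core iff all its elements are in the subgroup -/
private theorem tr_el {G : Type} [Group G] [Finite G] (H : Subgroup G) {p : ℕ} (hp : p.Prime) :
    p ∈ (H.normalCore.index).primeFactors ↔ ∃ g : G, (∃ k : ℕ, g ^ p ^ k = 1) ∧ g ∉ H := by
  have hF : Fact p.Prime := ⟨hp⟩
  have hi0 : H.normalCore.index ≠ 0 := Subgroup.index_ne_zero_of_finite
  constructor
  · intro h
    by_contra hcon
    push Not at hcon
    obtain ⟨P⟩ : Nonempty (Sylow p G) := inferInstance
    have h1 : (P : Subgroup G) ≤ H.normalCore := by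
      intro x hx b
      obtain ⟨k, hk⟩ := P.2 ⟨x, hx⟩
      have hk' : x ^ p ^ k = 1 := by
        have h2 := congrArg (fun y : (P : Subgroup G) => (y : G)) hk
        simpa using h2
      refine hcon _ ⟨k, ?_⟩
      rw [conj_pow, hk', mul_one, mul_inv_cancel]
    exact P.not_dvd_index ((Nat.dvd_of_mem_primeFactors h).trans (Subgroup.index_dvd_of_le h1))
  · rintro ⟨g, ⟨k, hk⟩, hg⟩
    rw [Nat.mem_primeFactors]
    refine ⟨hp, ?_, hi0⟩
    by_contra hcon
    apply hg
    apply Subgroup.normalCore_le
    have hcop : Nat.Coprime (p ^ k) H.normalCore.index :=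
      Nat.Coprime.pow_left k ((Nat.Prime.coprime_iff_not_dvd hp).2 hcon)
    have h1 : (QuotientGroup.mk' H.normalCore g) ^ (p ^ k) = 1 := by
      rw [← map_pow, hk, map_one]
    have h2 : (QuotientGroup.mk' H.normalCore g) ^ H.normalCore.index = 1 := pow_card_eq_one'
    have h3 : orderOf (QuotientGroup.mk' H.normalCore g) ∣ Nat.gcd (p ^ k) H.normalCore.index :=
      Nat.dvd_gcd (orderOf_dvd_of_pow_eq_one h1) (orderOf_dvd_of_pow_eq_one h2)
    rw [hcop] at h3
    exact (QuotientGroup.eq_one_iff g).1 (orderOf_eq_one_iff.1 (Nat.dvd_one.1 h3))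

theorem tr_omega : ∀ (d : ℕ) (G : Type) [Group G] [Finite G] [Group.IsSolvable G] (H : Subgroup G),
    H.index = d → (H.normalCore.index).primeFactors.card ≤ Nat.log 2 d * (Nat.log 2 d + 1) := by
  classical
  intro d
  induction d using Nat.strong_induction_on with
  | _ d ih =>
    intro G _ _ _ H hd
    rcases eq_top_or_exists_le_coatom H with h | ⟨M, hM, hHM⟩
    · have h1 : H.normalCore.index = 1 := by
        rw [h, Subgroup.normalCore_eq_self, Subgroup.index_top]
      rw [h1, Nat.primeFactors_one, Finset.card_empty]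
      exact Nat.zero_le _
    · have hH0 : H.index ≠ 0 := Subgroup.index_ne_zero_of_finite
      have hM0 : M.index ≠ 0 := Subgroup.index_ne_zero_of_finite
      have hR0 : H.relIndex M ≠ 0 := Subgroup.index_ne_zero_of_finite (H := H.subgroupOf M)
      have hmul := Subgroup.relIndex_mul_index hHM
      have hM1 : M.index ≠ 1 := fun h => hM.1 (Subgroup.index_eq_one.1 h)
      have hlt : H.relIndex M < d := by
        rw [← hd, ← hmul]
        have h2 : 2 ≤ M.index := by omega
        have h3 : 0 < H.relIndex M := Nat.pos_of_ne_zero hR0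
        nlinarith
      have h1 := ih (H.relIndex M) hlt M (H.subgroupOf M) rfl
      have h2 := prim_omega autB hM
      have hsub : (H.normalCore.index).primeFactors ⊆
          (M.normalCore.index).primeFactors ∪ ((H.subgroupOf M).normalCore.index).primeFactors := by
        intro p hp
        have hpp := Nat.prime_of_mem_primeFactors hp
        rw [Finset.mem_union]
        by_contra hcon
        push Not at hcon
        obtain ⟨g, ⟨k, hk⟩, hg⟩ := (tr_el H hpp).1 hp
        have hgM : g ∈ M := by
          by_contra hgM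
          exact hcon.1 ((tr_el M hpp).2 ⟨g, ⟨k, hk⟩, hgM⟩)
        apply hcon.2
        rw [tr_el _ hpp]
        refine ⟨⟨g, hgM⟩, ⟨k, ?_⟩, fun h => hg ?_⟩
        · apply Subtype.ext
          push_cast
          exact hk
        · exact Subgroup.mem_subgroupOf.1 h
      refine (Finset.card_le_card hsub).trans ((Finset.card_union_le _ _).trans ?_)
      have h3 := log_add (H.relIndex M) M.index hR0 hM0
      rw [hmul, hd] at h3
      obtain ⟨u, hu⟩ : ∃ u, u = Nat.log 2 (H.relIndex M) := ⟨_, rfl⟩
      obtain ⟨v, hv⟩ : ∃ v, v = Nat.log 2 M.index := ⟨_, rfl⟩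
      obtain ⟨w, hw⟩ : ∃ w, w = Nat.log 2 d := ⟨_, rfl⟩
      rw [← hu, ← hv, ← hw] at h3
      rw [← hu] at h1
      rw [← hv] at h2
      rw [← hw]
      have h4 : (u + v) * (u + v + 1) ≤ w * (w + 1) := Nat.mul_le_mul h3 (by omega)
      nlinarith [Nat.zero_le (u * v)]

/-- the index of the core of a subgroup of a solvable group -/
theorem core_le {G : Type} [Group G] [Finite G] [Group.IsSolvable G] (H : Subgroup G) {S : ℕ}
    (hS : ∀ (p : ℕ) (P : Subgroup G), p.Prime → IsPGroup p P → Nat.card P ≤ S) :
    H.normalCore.index ≤ S ^ (Nat.log 2 H.index * (Nat.log 2 H.index + 1)) := by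
  have hS1 : 1 ≤ S := by
    have h1 := hS 2 ⊥ Nat.prime_two IsPGroup.of_bot
    rwa [Subgroup.card_bot] at h1
  obtain ⟨i, hi⟩ : ∃ i, i = H.normalCore.index := ⟨_, rfl⟩
  have hi0 : i ≠ 0 := by
    rw [hi]
    exact Subgroup.index_ne_zero_of_finite
  have hid : i ∣ Nat.card G := by
    rw [hi]
    exact Subgroup.index_dvd_card _
  have h1 := tr_omega H.index G H rfl
  rw [← hi] at h1 ⊢
  have h2 : ∀ p ∈ i.primeFactors, p ^ i.factorization p ≤ S := by
    intro p hp
    have hpp := Nat.prime_of_mem_primeFactors hp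
    have hF : Fact p.Prime := ⟨hpp⟩
    obtain ⟨P⟩ : Nonempty (Sylow p G) := inferInstance
    refine le_trans ?_ (hS p P hpp P.2)
    rw [P.card_eq_multiplicity]
    refine Nat.pow_le_pow_right hpp.pos ?_
    exact (Nat.factorization_le_iff_dvd hi0 Nat.card_pos.ne').2 hid p
  conv_lhs => rw [← Nat.prod_factorization_pow_eq_self hi0]
  rw [Finsupp.prod, Nat.support_factorization]
  refine (Finset.prod_le_pow_card _ _ S h2).trans ?_
  exact Nat.pow_le_pow_right hS1 h1

/-- transitive constituents of solvable groups of permutations -/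
theorem tr_index {n : ℕ} {Γ : Subgroup (Equiv.Perm (Fin n))} (hΓ : Group.IsSolvable Γ) {S : ℕ}
    (hS : ∀ (p : ℕ) (P : Subgroup Γ), p.Prime → IsPGroup p P → Nat.card P ≤ S) (x : Fin n) :
    (MulAction.stabilizer Γ x).normalCore.index ≤ S ^ (Nat.log 2 n * (Nat.log 2 n + 1)) := by
  have hS1 : 1 ≤ S := by
    have h1 := hS 2 ⊥ Nat.prime_two IsPGroup.of_bot
    rwa [Subgroup.card_bot] at h1
  refine (core_le (MulAction.stabilizer Γ x) hS).trans (Nat.pow_le_pow_right hS1 ?_)
  have h1 : (MulAction.stabilizer Γ x).index ≤ n := by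
    rw [MulAction.index_stabilizer]
    have h2 : (MulAction.orbit Γ x).ncard ≤ (Set.univ : Set (Fin n)).ncard :=
      Set.ncard_le_ncard (Set.subset_univ _) (Set.toFinite _)
    rwa [Set.ncard_univ, Nat.card_eq_fintype_card, Fintype.card_fin] at h2
  have h2 := Nat.log_mono_right (b := 2) h1
  exact Nat.mul_le_mul h2 (by omega)

end Pool.Agent.H81.SV
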